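import Mathlib

set_option autoImplicit false

/-! Moments of `t ↦ ∑_c f(t + c²)` on `ZMod (l ^ k)`. -/

namespace Pool.Agent.W5h22.RB
open Finset

/-- the mean over `ZMod n` -/
noncomputable def E {n : ℕ} [NeZero n] (g : ZMod n → ℝ) : ℝ := (∑ t, g t) / n

/-- the mean of `f(t + d c²)` over `c` -/
noncomputable def P {n : ℕ} [NeZero n] (d : ℕ) (f : ZMod n → ℝ) (t : ZMod n) : ℝ := (∑ c : ZMod n, f (t + d * c ^ 2)) / n

/-- the part of `P` with `c` a unit -/
noncomputable def Q {n : ℕ} [NeZero n] (d : ℕ) (f : ZMod n → ℝ) (t : ZMod n) : ℝ := by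
  classical exact (∑ c ∈ univ.filter (fun c : ZMod n => IsUnit c), f (t + d * c ^ 2)) / n

section gen
variable {n : ℕ} [NeZero n]

lemma n_pos : (0 : ℝ) < n := by exact_mod_cast Nat.pos_of_ne_zero (NeZero.ne n)

lemma E_mono (g h : ZMod n → ℝ) (H : ∀ t, g t ≤ h t) : E g ≤ E h := by
  unfold E
  exact div_le_div_of_nonneg_right (sum_le_sum fun t _ => H t) n_pos.le

lemma E_nonneg (g : ZMod n → ℝ) (H : ∀ t, 0 ≤ g t) : 0 ≤ E g := by
  unfold E
  exact div_nonneg (sum_nonneg fun t _ => H t) n_pos.le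

lemma E_add (g h : ZMod n → ℝ) : E (fun t => g t + h t) = E g + E h := by
  unfold E
  rw [sum_add_distrib, add_div]

lemma E_mul (a : ℝ) (h : ZMod n → ℝ) : E (fun t => a * h t) = a * E h := by
  unfold E
  rw [← mul_sum, mul_div_assoc]

lemma E_const (a : ℝ) : E (fun _ : ZMod n => a) = a := by
  unfold E
  rw [sum_const, card_univ, ZMod.card, nsmul_eq_mul]
  have := (n_pos (n := n)).ne'
  field_simp

lemma E_shift (g : ZMod n → ℝ) (v : ZMod n) : E (fun t => g (t + v)) = E g := by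
  unfold E
  congr 1
  exact Equiv.sum_comp (Equiv.addRight v) g

lemma sum_fib {ι κ : Type*} [Fintype κ] [DecidableEq κ] (s : Finset ι) (φ : ι → κ) (g : κ → ℝ) (hg : ∀ w, 0 ≤ g w) (m : ℕ)
    (hm : ∀ w, #(s.filter (fun i => φ i = w)) ≤ m) : ∑ i ∈ s, g (φ i) ≤ m * ∑ w, g w := by
  calc ∑ i ∈ s, g (φ i) = ∑ w, ∑ i ∈ s.filter (fun i => φ i = w), g (φ i) := (sum_fiberwise s φ _).symm
    _ = ∑ w, (#(s.filter (fun i => φ i = w)) : ℝ) * g w := by
        apply sum_congr rfl
        intro w _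
        rw [sum_congr rfl (fun i hi => by rw [(mem_filter.1 hi).2]), sum_const, nsmul_eq_mul]
    _ ≤ ∑ w, (m : ℝ) * g w := sum_le_sum fun w _ => mul_le_mul_of_nonneg_right (by exact_mod_cast hm w) (hg w)
    _ = _ := by rw [mul_sum]

lemma card_mul_eq (d : ℕ) (hd : 1 ≤ d) (w : ZMod n) : #(univ.filter (fun v : ZMod n => (d : ZMod n) * v = w)) ≤ d := by
  have h : #(univ.filter (fun v : ZMod n => (d : ZMod n) * v = w)) ≤ #(range d) := by
    apply card_le_card_of_injOn (fun v => d * v.val / n)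
    · intro v _
      rw [mem_coe, mem_range]
      apply Nat.div_lt_of_lt_mul
      rw [mul_comm]
      exact Nat.mul_lt_mul_of_pos_right (ZMod.val_lt v) hd
    · intro v hv v' hv' h
      have key : ∀ u : ZMod n, (d : ZMod n) * u = w → (d * u.val) % n = w.val := by
        intro u hu
        rw [← ZMod.val_natCast]
        push_cast
        rw [ZMod.natCast_zmod_val, hu]
      rw [mem_coe, mem_filter] at hv hv'
      have h1 := key v hv.2
      have h2 := key v' hv'.2
      simp only at h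
      have h3 : d * v.val = d * v'.val := by
        rw [← Nat.div_add_mod (d * v.val) n, ← Nat.div_add_mod (d * v'.val) n, h, h1, h2]
      exact ZMod.val_injective n (Nat.eq_of_mul_eq_mul_left hd h3)
  rwa [card_range] at h

lemma sum_mul_le (d : ℕ) (hd : 1 ≤ d) (t : ZMod n) (g : ZMod n → ℝ) (hg : ∀ w, 0 ≤ g w) :
    ∑ v : ZMod n, g (t + d * v) ≤ d * ∑ w, g w := by
  apply sum_fib univ (fun v : ZMod n => t + d * v) g hg d
  intro w
  refine le_trans (card_le_card ?_) (card_mul_eq d hd (w - t))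
  intro v hv
  rw [mem_filter] at hv ⊢
  exact ⟨mem_univ _, by rw [← hv.2]; ring⟩

end gen

lemma two_cases (l : ℕ) (hl : l.Prime) (k : ℕ) (x y c : ℤ) (hc : ¬ (l : ℤ) ∣ c) (hxy : x + y = 2 * c)
    (h : (l : ℤ) ^ k ∣ x * y) : (l : ℤ) ^ k ∣ 2 * x ∨ (l : ℤ) ^ k ∣ 2 * y := by
  have hp : Prime (l : ℤ) := Nat.prime_iff_prime_int.1 hl
  by_cases h1 : (l : ℤ) ∣ x
  · by_cases h2 : (l : ℤ) ∣ y
    · have h3 : (l : ℤ) ∣ 2 * c := by rw [← hxy]; exact dvd_add h1 h2
      rcases hp.dvd_or_dvd h3 with h4 | h4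
      · have h5 : l = 2 := by
          have : l ∣ 2 := by exact_mod_cast h4
          exact (Nat.prime_dvd_prime_iff_eq hl Nat.prime_two).1 this
        subst h5
        obtain ⟨x', rfl⟩ := h1
        obtain ⟨y', rfl⟩ := h2
        push_cast at *
        by_cases h6 : (2 : ℤ) ∣ x'
        · have h7 : ¬ (2 : ℤ) ∣ y' := by
            intro h7
            apply hc
            have : c = x' + y' := by linarith
            rw [this]; exact dvd_add h6 h7
          left
          have h8 : (2 : ℤ) ^ k ∣ (2 * (2 * x')) * y' := by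
            have : (2 * (2 * x')) * y' = 2 * x' * (2 * y') := by ring
            rw [this]; exact h
          exact hp.pow_dvd_of_dvd_mul_right k h7 h8
        · right
          have h8 : (2 : ℤ) ^ k ∣ x' * (2 * (2 * y')) := by
            have : x' * (2 * (2 * y')) = 2 * x' * (2 * y') := by ring
            rw [this]; exact h
          exact hp.pow_dvd_of_dvd_mul_left k h6 h8
      · exact absurd h4 hc
    · left
      exact Dvd.dvd.mul_left (hp.pow_dvd_of_dvd_mul_right k h2 h) 2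
  · right
    exact Dvd.dvd.mul_left (hp.pow_dvd_of_dvd_mul_left k h1 h) 2

section pp
variable {l k : ℕ} [NeZero (l ^ k)]

lemma isUnit_iff (hl : l.Prime) (hk : 1 ≤ k) (c : ZMod (l ^ k)) : IsUnit c ↔ ¬ l ∣ c.val := by
  rw [← ZMod.natCast_zmod_val c, ZMod.isUnit_iff_coprime, ZMod.natCast_zmod_val]
  rw [Nat.coprime_pow_right_iff (by omega), Nat.coprime_comm]
  exact hl.coprime_iff_not_dvd

lemma card_sq_eq (hl : l.Prime) (v : ZMod (l ^ k)) :
    #(univ.filter (fun c : ZMod (l ^ k) => IsUnit c ∧ c ^ 2 = v)) ≤ 4 := by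
  classical
  rcases (univ.filter (fun c : ZMod (l ^ k) => IsUnit c ∧ c ^ 2 = v)).eq_empty_or_nonempty with h | ⟨c₀, hc₀⟩
  · rw [h]; simp
  rw [mem_filter] at hc₀
  obtain ⟨_, hu, hsq⟩ := hc₀
  have h1 : univ.filter (fun c : ZMod (l ^ k) => IsUnit c ∧ c ^ 2 = v) ⊆
      univ.filter (fun c : ZMod (l ^ k) => ((2 : ℕ) : ZMod (l ^ k)) * c = 2 * c₀) ∪
      univ.filter (fun c : ZMod (l ^ k) => ((2 : ℕ) : ZMod (l ^ k)) * c = - (2 * c₀)) := by
    intro c hc
    rw [mem_filter] at hc
    obtain ⟨_, hcu, hcs⟩ := hc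
    rw [mem_union, mem_filter, mem_filter]
    rcases Nat.eq_zero_or_pos k with rfl | hk
    · left
      refine ⟨mem_univ _, ?_⟩
      have : Subsingleton (ZMod (l ^ 0)) := by rw [pow_zero]; infer_instance
      exact Subsingleton.elim _ _
    have hcl := (isUnit_iff hl hk c).1 hcu
    have h2 : (l : ℤ) ^ k ∣ ((c.val : ℤ) - c₀.val) * (c.val + c₀.val) := by
      have h3 : ((((c.val : ℤ) - c₀.val) * (c.val + c₀.val) : ℤ) : ZMod (l ^ k)) = 0 := by
        push_cast
        rw [ZMod.natCast_zmod_val, ZMod.natCast_zmod_val]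
        linear_combination hcs - hsq
      have h4 := (ZMod.intCast_zmod_eq_zero_iff_dvd _ _).1 h3
      exact_mod_cast h4
    rcases two_cases l hl k _ _ (c.val : ℤ) (by exact_mod_cast hcl) (by ring) h2 with h3 | h3
    · left
      refine ⟨mem_univ _, ?_⟩
      have h4 : ((2 * ((c.val : ℤ) - c₀.val) : ℤ) : ZMod (l ^ k)) = 0 :=
        (ZMod.intCast_zmod_eq_zero_iff_dvd _ _).2 (by exact_mod_cast h3)
      push_cast at h4
      rw [ZMod.natCast_zmod_val, ZMod.natCast_zmod_val] at h4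
      push_cast
      linear_combination h4
    · right
      refine ⟨mem_univ _, ?_⟩
      have h4 : ((2 * ((c.val : ℤ) + c₀.val) : ℤ) : ZMod (l ^ k)) = 0 :=
        (ZMod.intCast_zmod_eq_zero_iff_dvd _ _).2 (by exact_mod_cast h3)
      push_cast at h4
      rw [ZMod.natCast_zmod_val, ZMod.natCast_zmod_val] at h4
      push_cast
      linear_combination h4
  refine (card_le_card h1).trans ((card_union_le _ _).trans ?_)
  have a1 := card_mul_eq (n := l ^ k) 2 (by norm_num) (2 * c₀)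
  have a2 := card_mul_eq (n := l ^ k) 2 (by norm_num) (-(2 * c₀))
  omega

open Classical in
lemma nonunit_sum (hl : l.Prime) (g : ZMod (l ^ k) → ℝ) (hg : ∀ c, 0 ≤ g c) :
    l * ∑ c ∈ univ.filter (fun c : ZMod (l ^ k) => ¬ IsUnit c), g c ≤ ∑ c', g (l * c') := by
  rcases Nat.eq_zero_or_pos k with rfl | hk
  · have h1 : univ.filter (fun c : ZMod (l ^ 0) => ¬ IsUnit c) = ∅ := by
      rw [filter_eq_empty_iff]
      intro c _
      rw [not_not]
      have : Subsingleton (ZMod (l ^ 0)) := by rw [pow_zero]; infer_instance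
      exact isUnit_of_subsingleton c
    rw [h1, sum_empty, mul_zero]
    exact sum_nonneg fun c _ => hg _
  have hlk : l ^ k = l ^ (k - 1) * l := by rw [← pow_succ]; congr 1; omega
  have hq0 : 0 < l ^ (k - 1) := Nat.pow_pos hl.pos
  set N := univ.filter (fun c : ZMod (l ^ k) => ¬ IsUnit c) with hN
  set ψ : ZMod (l ^ k) × ℕ → ZMod (l ^ k) := fun x => ((x.1.val / l + x.2 * l ^ (k - 1) : ℕ) : ZMod (l ^ k)) with hψ
  have hdvd : ∀ c ∈ N, l ∣ c.val := by
    intro c hc
    rw [hN, mem_filter, isUnit_iff hl hk, not_not] at hc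
    exact hc.2
  have hlt : ∀ c : ZMod (l ^ k), c.val / l < l ^ (k - 1) := by
    intro c
    apply Nat.div_lt_of_lt_mul
    rw [mul_comm, ← hlk]
    exact ZMod.val_lt c
  have hlt2 : ∀ x ∈ N ×ˢ range l, x.1.val / l + x.2 * l ^ (k - 1) < l ^ k := by
    intro x hx
    rw [mem_product, mem_range] at hx
    have h1 := hlt x.1
    calc x.1.val / l + x.2 * l ^ (k - 1) < l ^ (k - 1) + x.2 * l ^ (k - 1) := by omega
      _ = (x.2 + 1) * l ^ (k - 1) := by ring
      _ ≤ l * l ^ (k - 1) := Nat.mul_le_mul_right _ hx.2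
      _ = l ^ k := by rw [hlk]; ring
  have hinj : Set.InjOn ψ (N ×ˢ range l : Finset (ZMod (l ^ k) × ℕ)) := by
    intro x hx y hy hxy
    rw [mem_coe] at hx hy
    have h1 := hlt2 x hx
    have h2 := hlt2 y hy
    have h3 := congrArg ZMod.val hxy
    simp only [hψ] at h3
    rw [ZMod.val_natCast_of_lt h1, ZMod.val_natCast_of_lt h2] at h3
    have h4 := hlt x.1
    have h5 := hlt y.1
    have h6 : x.1.val / l = y.1.val / l := by
      have := congrArg (· % l ^ (k - 1)) h3
      simp only [Nat.add_mul_mod_self_right] at this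
      rwa [Nat.mod_eq_of_lt h4, Nat.mod_eq_of_lt h5] at this
    have h7 : x.2 = y.2 := by
      rw [h6] at h3
      have : x.2 * l ^ (k - 1) = y.2 * l ^ (k - 1) := by omega
      exact Nat.eq_of_mul_eq_mul_right hq0 this
    rw [mem_product] at hx hy
    have h8 : x.1.val = y.1.val := by
      rw [← Nat.mul_div_cancel' (hdvd x.1 hx.1), ← Nat.mul_div_cancel' (hdvd y.1 hy.1), h6]
    exact Prod.ext (ZMod.val_injective _ h8) h7
  have hval : ∀ x ∈ N ×ˢ range l, (l : ZMod (l ^ k)) * ψ x = x.1 := by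
    intro x hx
    rw [mem_product] at hx
    simp only [hψ]
    rw [← Nat.cast_mul]
    have h0 : ∀ i : ℕ, l * (i * l ^ (k - 1)) = i * l ^ k := fun i => by rw [hlk]; ring
    have h1 : l * (x.1.val / l + x.2 * l ^ (k - 1)) = x.1.val + x.2 * l ^ k := by
      rw [mul_add, Nat.mul_div_cancel' (hdvd x.1 hx.1), h0]
    rw [h1]
    push_cast
    rw [ZMod.natCast_zmod_val]
    have h2 : ((l : ZMod (l ^ k))) ^ k = 0 := by
      have := ZMod.natCast_self (l ^ k)
      push_cast at this
      exact this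
    rw [h2]; ring
  calc (l : ℝ) * ∑ c ∈ N, g c = ∑ x ∈ N ×ˢ range l, g x.1 := by
        rw [sum_product, mul_sum]
        apply sum_congr rfl
        intro c _
        dsimp only
        rw [sum_const, card_range, nsmul_eq_mul]
    _ = ∑ x ∈ N ×ˢ range l, (fun c' => g (l * c')) (ψ x) := by
        apply sum_congr rfl
        intro x hx
        simp only
        rw [hval x hx]
    _ = ∑ c' ∈ (N ×ˢ range l).image ψ, g (l * c') := (sum_image (f := fun c' => g (l * c')) (fun a ha b hb h => hinj ha hb h)).symm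
    _ ≤ _ := sum_le_sum_of_subset_of_nonneg (subset_univ _) (fun c _ _ => hg _)

end pp

end Pool.Agent.W5h22.RB
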