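import Mathlib
import Pool.Agent.W5h22.RB.L1

set_option autoImplicit false

/-! Moments of `t ↦ ∑_c f(t + c²)` on `ZMod (l ^ k)`. -/

namespace Pool.Agent.W5h22.RB
open Finset

section gen
variable {n : ℕ} [NeZero n]

lemma E_comm (g : ZMod n → ZMod n → ℝ) : E (fun t => E (fun v => g t v)) = E (fun v => E (fun t => g t v)) := by
  unfold E
  rw [← sum_div, ← sum_div, sum_comm]

/-- the mean of `f(t + d v)²` over `v` -/
noncomputable def Mm (d : ℕ) (f : ZMod n → ℝ) (t : ZMod n) : ℝ := E (fun v : ZMod n => f (t + d * v) ^ 2)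

lemma Mm_nonneg (d : ℕ) (f : ZMod n → ℝ) (t : ZMod n) : 0 ≤ Mm d f t := E_nonneg _ (fun _ => sq_nonneg _)

lemma Mm_le (d : ℕ) (hd : 1 ≤ d) (f : ZMod n → ℝ) (t : ZMod n) : Mm d f t ≤ d * E (fun s => f s ^ 2) := by
  unfold Mm E
  rw [← mul_div_assoc]
  apply div_le_div_of_nonneg_right _ n_pos.le
  exact sum_mul_le d hd t (fun w => f w ^ 2) (fun w => sq_nonneg _)

lemma E_Mm (d : ℕ) (f : ZMod n → ℝ) : E (Mm d f) = E (fun s => f s ^ 2) := by
  have h : E (Mm d f) = E (fun v : ZMod n => E (fun t : ZMod n => f (t + d * v) ^ 2)) := by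
    unfold Mm
    rw [E_comm (fun t v : ZMod n => f (t + d * v) ^ 2)]
  rw [h]
  have h2 : ∀ v : ZMod n, E (fun t : ZMod n => f (t + d * v) ^ 2) = E (fun s => f s ^ 2) := fun v => E_shift (fun s => f s ^ 2) (d * v)
  simp_rw [h2]
  exact E_const _

lemma P_nonneg (d : ℕ) (f : ZMod n → ℝ) (hf : ∀ s, 0 ≤ f s) (t : ZMod n) : 0 ≤ P d f t := by
  unfold P
  exact div_nonneg (sum_nonneg fun c _ => hf _) n_pos.le

lemma Q_nonneg (d : ℕ) (f : ZMod n → ℝ) (hf : ∀ s, 0 ≤ f s) (t : ZMod n) : 0 ≤ Q d f t := by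
  unfold Q
  exact div_nonneg (sum_nonneg fun c _ => hf _) n_pos.le

end gen

lemma pow_two_cases (m : ℕ) (hm : 1 ≤ m) (x y : ℝ) (hx : 0 ≤ x) (hy : 0 ≤ y) :
    (x + y) ^ (2 * m) ≤ (1 + 4 * m) ^ (2 * m) * x ^ (2 * m) + 2 * y ^ (2 * m) := by
  have hm0 : (0 : ℝ) < m := by exact_mod_cast hm
  rcases le_or_gt y (4 * m * x) with h | h
  · have h1 : (x + y) ^ (2 * m) ≤ ((1 + 4 * m) * x) ^ (2 * m) := by
      apply pow_le_pow_left₀ (by positivity)
      linarith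
    rw [mul_pow] at h1
    have h2 : 0 ≤ 2 * y ^ (2 * m) := by positivity
    linarith
  · have h1 : (x + y) ^ (2 * m) ≤ (y * (1 + 1 / (4 * m))) ^ (2 * m) := by
      apply pow_le_pow_left₀ (by positivity)
      have h2 : x ≤ y * (1 / (4 * m)) := by
        rw [mul_one_div, le_div_iff₀ (by positivity)]
        linarith
      linarith
    have h2 : (1 + 1 / (4 * (m : ℝ))) ^ (2 * m) ≤ 2 := by
      have h3 : 1 + 1 / (4 * (m : ℝ)) ≤ Real.exp (1 / (4 * m)) := by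
        have := Real.add_one_le_exp (1 / (4 * (m : ℝ)))
        linarith
      have h4 : (1 + 1 / (4 * (m : ℝ))) ^ (2 * m) ≤ Real.exp (1 / 2) := by
        calc (1 + 1 / (4 * (m : ℝ))) ^ (2 * m) ≤ (Real.exp (1 / (4 * m))) ^ (2 * m) := pow_le_pow_left₀ (by positivity) h3 _
          _ = Real.exp (1 / 2) := by
              rw [← Real.exp_nat_mul]
              congr 1
              push_cast
              field_simp
              norm_num
      have h5 : Real.exp (1 / 2) ≤ 2 := by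
        have h6 : Real.exp (1 / 2) * Real.exp (1 / 2) = Real.exp 1 := by
          rw [← Real.exp_add]; norm_num
        have h7 := Real.exp_one_lt_d9
        have h8 := Real.exp_pos (1 / 2)
        by_contra hcon
        push Not at hcon
        nlinarith
      linarith
    rw [mul_pow] at h1
    have h3 : y ^ (2 * m) * (1 + 1 / (4 * (m : ℝ))) ^ (2 * m) ≤ y ^ (2 * m) * 2 := mul_le_mul_of_nonneg_left h2 (by positivity)
    have h4 : 0 ≤ (1 + 4 * (m : ℝ)) ^ (2 * m) * x ^ (2 * m) := by positivity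
    linarith

lemma aux_pow (y d c : ℝ) (hy : y ≠ 0) (K : ℕ) : (1 / y) ^ (2 * (K + 1)) * (c * (d * y ^ 2) ^ K) = c * d ^ K / y ^ 2 := by
  have h1 : y ^ (2 * (K + 1)) = y ^ (2 * K) * y ^ 2 := by ring
  rw [one_div, inv_pow, h1, mul_pow, ← pow_mul]
  have := pow_ne_zero (2 * K) hy
  field_simp

section pp
variable {l k : ℕ} [NeZero (l ^ k)]

lemma Q_sq (hl : l.Prime) (d : ℕ) (f : ZMod (l ^ k) → ℝ) (t : ZMod (l ^ k)) : Q d f t ^ 2 ≤ 4 * Mm d f t := by
  classical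
  unfold Q Mm E
  have hn0 : (0 : ℝ) < ((l ^ k : ℕ) : ℝ) := n_pos
  set U := univ.filter (fun c : ZMod (l ^ k) => IsUnit c) with hU
  have h1 : (∑ c ∈ U, f (t + d * c ^ 2)) ^ 2 ≤ #U * ∑ c ∈ U, f (t + d * c ^ 2) ^ 2 := sq_sum_le_card_mul_sum_sq
  have h2 : ∑ c ∈ U, f (t + d * c ^ 2) ^ 2 ≤ (4 : ℕ) * ∑ v, f (t + d * v) ^ 2 := by
    apply sum_fib U (fun c : ZMod (l ^ k) => c ^ 2) (fun v => f (t + d * v) ^ 2) (fun v => sq_nonneg _) 4
    intro w
    rw [hU, filter_filter]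
    exact card_sq_eq hl w
  have h3 : (#U : ℝ) ≤ ((l ^ k : ℕ) : ℝ) := by
    have := card_le_univ U
    rw [ZMod.card] at this
    exact_mod_cast this
  have h4 : 0 ≤ ∑ c ∈ U, f (t + d * c ^ 2) ^ 2 := sum_nonneg fun _ _ => sq_nonneg _
  rw [div_pow, div_le_iff₀ (by positivity)]
  calc (∑ c ∈ U, f (t + d * c ^ 2)) ^ 2 ≤ #U * ∑ c ∈ U, f (t + d * c ^ 2) ^ 2 := h1
    _ ≤ ((l ^ k : ℕ) : ℝ) * ((4 : ℕ) * ∑ v, f (t + d * v) ^ 2) := mul_le_mul h3 h2 h4 hn0.le
    _ = 4 * ((∑ v, f (t + d * v) ^ 2) / ((l ^ k : ℕ) : ℝ)) * ((l ^ k : ℕ) : ℝ) ^ 2 := by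
        generalize ((l ^ k : ℕ) : ℝ) = y at hn0
        push_cast
        field_simp

lemma P_sub_Q (hl : l.Prime) (d : ℕ) (f : ZMod (l ^ k) → ℝ) (t : ZMod (l ^ k)) :
    |P d f t - Q d f t| ≤ (1 / l) * P (d * l ^ 2) (fun s => |f s|) t := by
  classical
  have hn0 : (0 : ℝ) < ((l ^ k : ℕ) : ℝ) := n_pos
  have hl0 : (0 : ℝ) < l := by exact_mod_cast hl.pos
  have h1 : P d f t - Q d f t = (∑ c ∈ univ.filter (fun c : ZMod (l ^ k) => ¬ IsUnit c), f (t + d * c ^ 2)) / ((l ^ k : ℕ) : ℝ) := by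
    unfold P Q
    rw [← sub_div, ← sum_filter_add_sum_filter_not univ (fun c : ZMod (l ^ k) => IsUnit c)]
    congr 1
    ring
  have h2 := nonunit_sum hl (fun c : ZMod (l ^ k) => |f (t + d * c ^ 2)|) (fun c => abs_nonneg _)
  rw [h1, abs_div, abs_of_pos hn0]
  unfold P
  have h3 : ∑ c' : ZMod (l ^ k), |f (t + d * (l * c') ^ 2)| = ∑ c : ZMod (l ^ k), |f (t + ((d * l ^ 2 : ℕ) : ZMod (l ^ k)) * c ^ 2)| := by
    apply sum_congr rfl
    intro c _
    congr 3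
    push_cast; ring
  rw [h3] at h2
  rw [← mul_div_assoc]
  apply div_le_div_of_nonneg_right _ hn0.le
  rw [one_div, le_inv_mul_iff₀ hl0]
  exact (mul_le_mul_of_nonneg_left (abs_sum_le_sum_abs _ _) hl0.le).trans h2

/-- the constant of the crude bound -/
noncomputable def CK (K : ℕ) : ℝ := 2 * ((1 + 4 * ((K + 1 : ℕ) : ℝ)) ^ (2 * (K + 1)) * 4 ^ (K + 1))

lemma CK_pos (K : ℕ) : 0 < CK K := by unfold CK; positivity

lemma EQ_pow (hl : l.Prime) (K d : ℕ) (hd : 1 ≤ d) (f : ZMod (l ^ k) → ℝ) :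
    E (fun t => Q d f t ^ (2 * (K + 1))) ≤ 4 ^ (K + 1) * d ^ K * (E (fun s => f s ^ 2)) ^ (K + 1) := by
  set F := E (fun s => f s ^ 2) with hF
  have hF0 : 0 ≤ F := E_nonneg _ (fun _ => sq_nonneg _)
  have h1 : ∀ t, Q d f t ^ (2 * (K + 1)) ≤ (4 ^ (K + 1) * (d * F) ^ K) * Mm d f t := by
    intro t
    have h2 := Q_sq hl d f t
    have h3 := Mm_le d hd f t
    have h4 := Mm_nonneg d f t
    calc Q d f t ^ (2 * (K + 1)) = (Q d f t ^ 2) ^ (K + 1) := by rw [pow_mul]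
      _ ≤ (4 * Mm d f t) ^ (K + 1) := pow_le_pow_left₀ (sq_nonneg _) h2 _
      _ = 4 ^ (K + 1) * Mm d f t ^ K * Mm d f t := by rw [mul_pow]; ring
      _ ≤ 4 ^ (K + 1) * (d * F) ^ K * Mm d f t := by
          apply mul_le_mul_of_nonneg_right _ h4
          apply mul_le_mul_of_nonneg_left _ (by positivity)
          exact pow_le_pow_left₀ h4 h3 _
  refine (E_mono _ _ h1).trans ?_
  have h5 := E_mul (4 ^ (K + 1) * (d * F) ^ K) (Mm d f)
  rw [h5, E_Mm, ← hF]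
  apply le_of_eq
  rw [mul_pow]; ring

theorem crude (hl : l.Prime) (K : ℕ) (f : ZMod (l ^ k) → ℝ) (hf : ∀ s, 0 ≤ f s) : ∀ m d : ℕ, 1 ≤ d → l ^ k ∣ d * l ^ (2 * m) →
    E (fun t => P d f t ^ (2 * (K + 1))) ≤ CK K * d ^ K * (E (fun s => f s ^ 2)) ^ (K + 1) := by
  set F := E (fun s => f s ^ 2) with hF
  have hF0 : 0 ≤ F := E_nonneg _ (fun _ => sq_nonneg _)
  have hn0 : (0 : ℝ) < ((l ^ k : ℕ) : ℝ) := n_pos
  have hl0 : (0 : ℝ) < l := by exact_mod_cast hl.pos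
  have hl2 : (2 : ℝ) ≤ l := by exact_mod_cast hl.two_le
  have hCK : 1 ≤ CK K := by
    unfold CK
    have h1 : (1 : ℝ) ≤ (1 + 4 * ((K + 1 : ℕ) : ℝ)) ^ (2 * (K + 1)) := one_le_pow₀ (by
      have : (0 : ℝ) ≤ ((K + 1 : ℕ) : ℝ) := Nat.cast_nonneg _
      linarith)
    have h2 : (1 : ℝ) ≤ 4 ^ (K + 1) := one_le_pow₀ (by norm_num)
    nlinarith
  intro m
  induction m with
  | zero =>
    intro d hd hdvd
    rw [mul_zero, pow_zero, mul_one] at hdvd
    have hd0 : (d : ZMod (l ^ k)) = 0 := (ZMod.natCast_eq_zero_iff _ _).2 hdvd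
    have hP : ∀ t, P d f t = f t := by
      intro t
      unfold P
      simp only [hd0, zero_mul, add_zero]
      rw [sum_const, card_univ, ZMod.card, nsmul_eq_mul]
      field_simp
    simp_rw [hP]
    have hnd : ((l ^ k : ℕ) : ℝ) ≤ d := by exact_mod_cast Nat.le_of_dvd hd hdvd
    have h1 : ∀ s, f s ^ (2 * (K + 1)) ≤ (((l ^ k : ℕ) : ℝ) * F) ^ K * f s ^ 2 := by
      intro s
      have h2 : f s ^ 2 ≤ ((l ^ k : ℕ) : ℝ) * F := by
        rw [hF]; unfold E
        rw [mul_div_cancel₀ _ hn0.ne']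
        exact single_le_sum (f := fun s => f s ^ 2) (fun i _ => sq_nonneg _) (mem_univ s)
      calc f s ^ (2 * (K + 1)) = (f s ^ 2) ^ K * f s ^ 2 := by rw [pow_mul, pow_succ]
        _ ≤ _ := mul_le_mul_of_nonneg_right (pow_le_pow_left₀ (sq_nonneg _) h2 _) (sq_nonneg _)
    refine (E_mono _ _ h1).trans ?_
    rw [E_mul, ← hF]
    calc (((l ^ k : ℕ) : ℝ) * F) ^ K * F ≤ ((d : ℝ) * F) ^ K * F := by
          apply mul_le_mul_of_nonneg_right _ hF0
          apply pow_le_pow_left₀ (by positivity)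
          exact mul_le_mul_of_nonneg_right hnd hF0
      _ = 1 * (d : ℝ) ^ K * F ^ (K + 1) := by rw [mul_pow]; ring
      _ ≤ CK K * (d : ℝ) ^ K * F ^ (K + 1) := by
          apply mul_le_mul_of_nonneg_right _ (by positivity)
          exact mul_le_mul_of_nonneg_right hCK (by positivity)
  | succ m ih =>
    intro d hd hdvd
    have hd' : 1 ≤ d * l ^ 2 := Nat.mul_pos hd (Nat.pow_pos hl.pos)
    have h1 := ih (d * l ^ 2) hd' (by
      have : d * l ^ 2 * l ^ (2 * m) = d * l ^ (2 * (m + 1)) := by ring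
      rw [this]; exact hdvd)
    set a : ℝ := (1 + 4 * ((K + 1 : ℕ) : ℝ)) ^ (2 * (K + 1)) with ha
    have habs : (fun s => |f s|) = f := by funext s; exact abs_of_nonneg (hf s)
    have h2 : ∀ t, P d f t ^ (2 * (K + 1)) ≤ a * Q d f t ^ (2 * (K + 1)) + (2 * (1 / l) ^ (2 * (K + 1))) * P (d * l ^ 2) f t ^ (2 * (K + 1)) := by
      intro t
      have h3 := P_sub_Q hl d f t
      rw [habs] at h3
      have h4 : P d f t ≤ Q d f t + (1 / l) * P (d * l ^ 2) f t := by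
        have := (abs_le.1 h3).2
        linarith
      have h5 := Q_nonneg d f hf t
      have h6 := P_nonneg (d * l ^ 2) f hf t
      refine (pow_le_pow_left₀ (P_nonneg d f hf t) h4 _).trans ?_
      refine (pow_two_cases (K + 1) (by omega) _ _ h5 (by positivity)).trans (le_of_eq ?_)
      rw [mul_pow]; ring
    refine (E_mono _ _ h2).trans ?_
    rw [E_add, E_mul, E_mul]
    have h3 := EQ_pow hl K d hd f
    rw [← hF] at h3
    have ha0 : 0 ≤ a := by positivity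
    have hCKa : CK K = 2 * (a * 4 ^ (K + 1)) := rfl
    have h4 : (2 * (1 / (l : ℝ)) ^ (2 * (K + 1))) * (CK K * ((d * l ^ 2 : ℕ) : ℝ) ^ K * F ^ (K + 1)) =
        (2 / (l : ℝ) ^ 2) * (CK K * (d : ℝ) ^ K * F ^ (K + 1)) := by
      have := aux_pow (l : ℝ) d (CK K * F ^ (K + 1)) hl0.ne' K
      push_cast
      linear_combination 2 * this
    have h5 : (2 / (l : ℝ) ^ 2) ≤ 1 / 2 := by
      rw [div_le_div_iff₀ (by positivity) (by norm_num)]
      nlinarith
    have h6 : 0 ≤ CK K * (d : ℝ) ^ K * F ^ (K + 1) := by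
      have := CK_pos K
      positivity
    calc a * E (fun t => Q d f t ^ (2 * (K + 1))) + 2 * (1 / (l : ℝ)) ^ (2 * (K + 1)) * E (fun t => P (d * l ^ 2) f t ^ (2 * (K + 1)))
        ≤ a * (4 ^ (K + 1) * d ^ K * F ^ (K + 1)) + (2 * (1 / (l : ℝ)) ^ (2 * (K + 1))) * (CK K * ((d * l ^ 2 : ℕ) : ℝ) ^ K * F ^ (K + 1)) :=
          add_le_add (mul_le_mul_of_nonneg_left h3 ha0) (mul_le_mul_of_nonneg_left h1 (by positivity))
      _ ≤ a * (4 ^ (K + 1) * d ^ K * F ^ (K + 1)) + (1 / 2) * (CK K * (d : ℝ) ^ K * F ^ (K + 1)) := by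
          rw [h4]
          have := mul_le_mul_of_nonneg_right h5 h6
          linarith
      _ = CK K * (d : ℝ) ^ K * F ^ (K + 1) := by rw [hCKa]; ring

lemma crude' (hl : l.Prime) (K d : ℕ) (hd : 1 ≤ d) (f : ZMod (l ^ k) → ℝ) (hf : ∀ s, 0 ≤ f s) :
    E (fun t => P d f t ^ (2 * (K + 1))) ≤ CK K * d ^ K * (E (fun s => f s ^ 2)) ^ (K + 1) := by
  apply crude hl K f hf k d hd
  apply Dvd.dvd.mul_left
  exact pow_dvd_pow l (by omega)

/-- **The second moment** of a function of mean zero. -/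
theorem l2_gen {n : ℕ} [NeZero n] (hunit2 : IsUnit (2 : ZMod n)) (L : ℝ) (hL : 0 ≤ L) (N : ℕ)
    (hNc : ∀ S : Finset (ZMod n), (∀ c ∈ S, ¬ IsUnit c) → #S ≤ N) (hN : L * N ≤ n) (f : ZMod n → ℝ) (h0 : ∑ s, f s = 0) :
    L * E (fun t => P 1 f t ^ 2) ≤ E (fun s => f s ^ 2) := by
  classical
  have hn0 : (0 : ℝ) < n := n_pos
  set S := ∑ s, f s ^ 2 with hS
  have hS0 : 0 ≤ S := sum_nonneg fun _ _ => sq_nonneg _
  set C : ZMod n → ℝ := fun d => ∑ t, f t * f (t + d) with hC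
  have hCle : ∀ d, C d ≤ S := by
    intro d
    have h1 : ∀ t, f t * f (t + d) ≤ (f t ^ 2 + f (t + d) ^ 2) / 2 := by
      intro t
      nlinarith [sq_nonneg (f t - f (t + d))]
    have h2 : ∑ t, f (t + d) ^ 2 = S := Equiv.sum_comp (Equiv.addRight d) (fun s => f s ^ 2)
    calc C d ≤ ∑ t, (f t ^ 2 + f (t + d) ^ 2) / 2 := sum_le_sum fun t _ => h1 t
      _ = S := by rw [← sum_div, sum_add_distrib, h2]; ring
  have hCsum : ∑ d, C d = 0 := by
    simp only [hC]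
    rw [sum_comm]
    have h1 : ∀ t, ∑ d, f t * f (t + d) = 0 := by
      intro t
      have h2 := Equiv.sum_comp (Equiv.addLeft t) f
      simp only [Equiv.coe_addLeft] at h2
      rw [← mul_sum, h2, h0, mul_zero]
    exact sum_eq_zero fun t _ => h1 t
  -- expand
  have hexp : ∑ t, (∑ c, f (t + c ^ 2)) ^ 2 = ∑ x : ZMod n × ZMod n, C ((x.2 - x.1) * (x.2 + x.1)) := by
    have h1 : ∀ t, (∑ c, f (t + c ^ 2)) ^ 2 = ∑ c, ∑ c', f (t + c ^ 2) * f (t + c' ^ 2) := by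
      intro t
      rw [sq, sum_mul_sum]
    simp_rw [h1]
    rw [sum_comm, Fintype.sum_prod_type]
    apply sum_congr rfl
    intro c _
    rw [sum_comm]
    apply sum_congr rfl
    intro c' _
    simp only [hC]
    rw [← Equiv.sum_comp (Equiv.addRight (c ^ 2)) (fun t => f t * f (t + (c' - c) * (c' + c)))]
    apply sum_congr rfl
    intro t _
    simp only [Equiv.coe_addRight]
    congr 2
    ring
  have hbij : ∑ x : ZMod n × ZMod n, C ((x.2 - x.1) * (x.2 + x.1)) = ∑ x : ZMod n × ZMod n, C (x.1 * x.2) := by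
    apply Fintype.sum_bijective (fun x : ZMod n × ZMod n => ((x.2 - x.1, x.2 + x.1) : ZMod n × ZMod n))
    · rw [← Finite.injective_iff_bijective]
      intro x y hxy
      simp only [Prod.mk.injEq] at hxy
      have h1 : (2 : ZMod n) * x.2 = 2 * y.2 := by linear_combination hxy.1 + hxy.2
      have h2 := hunit2.mul_left_cancel h1
      have h3 : x.1 = y.1 := by
        have := hxy.2
        rw [h2] at this
        exact add_left_cancel this
      exact Prod.ext h3 h2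
    · intro x
      rfl
  have hfib : ∀ α : ZMod n, ∑ β, C (α * β) ≤ if IsUnit α then 0 else n * S := by
    intro α
    split_ifs with hα
    · obtain ⟨u, rfl⟩ := hα
      have h2 : ∑ β, C (u * β) = ∑ β, C β := Equiv.sum_comp (Units.mulLeft u) C
      rw [h2, hCsum]
    · calc ∑ β, C (α * β) ≤ ∑ _β : ZMod n, S := sum_le_sum fun β _ => hCle _
        _ = n * S := by rw [sum_const, card_univ, ZMod.card, nsmul_eq_mul]
  have htot : ∑ t, (∑ c, f (t + c ^ 2)) ^ 2 ≤ N * (n * S) := by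
    rw [hexp, hbij, Fintype.sum_prod_type]
    calc ∑ α, ∑ β, C (α * β) ≤ ∑ α, if IsUnit α then 0 else n * S := sum_le_sum fun α _ => hfib α
      _ = #(univ.filter (fun c : ZMod n => ¬ IsUnit c)) * (n * S) := by
          rw [sum_ite, sum_const_zero, zero_add, sum_const, nsmul_eq_mul]
      _ ≤ _ := by
          apply mul_le_mul_of_nonneg_right _ (by positivity)
          exact_mod_cast hNc _ (fun c hc => (mem_filter.1 hc).2)
  have hE1 : E (fun t => P 1 f t ^ 2) = (∑ t, (∑ c, f (t + c ^ 2)) ^ 2) / n ^ 2 / n := by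
    unfold E P
    rw [sum_div univ _ ((n : ℝ) ^ 2)]
    congr 1
    apply sum_congr rfl
    intro t _
    simp only [Nat.cast_one, one_mul]
    rw [div_pow]
  rw [hE1]
  unfold E
  rw [← hS, ← mul_div_assoc]
  apply div_le_div_of_nonneg_right _ hn0.le
  rw [← mul_div_assoc, div_le_iff₀ (by positivity)]
  calc L * ∑ t, (∑ c, f (t + c ^ 2)) ^ 2 ≤ L * (N * (n * S)) := mul_le_mul_of_nonneg_left htot hL
    _ = (L * N) * (n * S) := by ring
    _ ≤ n * (n * S) := mul_le_mul_of_nonneg_right hN (by positivity)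
    _ = S * n ^ 2 := by ring

theorem l2 (hl : l.Prime) (hl2 : l ≠ 2) (f : ZMod (l ^ k) → ℝ) (h0 : ∑ s, f s = 0) :
    l * E (fun t => P 1 f t ^ 2) ≤ E (fun s => f s ^ 2) := by
  classical
  have hunit2 : IsUnit (2 : ZMod (l ^ k)) := by
    rcases Nat.eq_zero_or_pos k with rfl | hk
    · have : Subsingleton (ZMod (l ^ 0)) := by rw [pow_zero]; infer_instance
      exact isUnit_of_subsingleton _
    have h2 : ((2 : ℕ) : ZMod (l ^ k)) = 2 := by norm_num
    rw [← h2, ZMod.isUnit_iff_coprime]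
    apply Nat.Coprime.pow_right
    rw [Nat.coprime_comm, hl.coprime_iff_not_dvd]
    intro hd
    exact hl2 ((Nat.prime_dvd_prime_iff_eq hl Nat.prime_two).1 hd)
  have hN : (l : ℝ) * #(univ.filter (fun c : ZMod (l ^ k) => ¬ IsUnit c)) ≤ ((l ^ k : ℕ) : ℝ) := by
    have h1 := nonunit_sum (l := l) (k := k) hl (fun _ => (1 : ℝ)) (fun _ => zero_le_one)
    simp only [sum_const, nsmul_eq_mul, mul_one, card_univ, ZMod.card] at h1
    exact h1
  exact l2_gen hunit2 l (Nat.cast_nonneg l) _ (fun S hS => card_le_card (fun c hc => mem_filter.2 ⟨mem_univ _, hS c hc⟩)) hN f h0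

/-- the constant of the bound for functions of mean zero -/
noncomputable def CS (K : ℕ) : ℝ := 2 ^ (2 * (K + 1)) * (4 ^ K * (2 + 2 * CK 0) + CK K)

lemma CS_pos (K : ℕ) : 0 < CS K := by
  unfold CS
  have := CK_pos 0
  have := CK_pos K
  positivity

theorem small (hl : l.Prime) (hl2 : l ≠ 2) (K : ℕ) (f : ZMod (l ^ k) → ℝ) (h0 : ∑ s, f s = 0) :
    E (fun t => P 1 f t ^ (2 * (K + 1))) ≤ CS K / l * (E (fun s => f s ^ 2)) ^ (K + 1) := by
  set F := E (fun s => f s ^ 2) with hF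
  have hF0 : 0 ≤ F := E_nonneg _ (fun _ => sq_nonneg _)
  have hl0 : (0 : ℝ) < l := by exact_mod_cast hl.pos
  have hl1 : (1 : ℝ) ≤ l := by exact_mod_cast hl.one_lt.le
  have hCK0 := CK_pos 0
  have hCKK := CK_pos K
  have hsqabs : ∀ s, |f s| ^ 2 = f s ^ 2 := fun s => sq_abs _
  have hF' : E (fun s => |f s| ^ 2) = F := by simp_rw [hsqabs]; rfl
  set R : ZMod (l ^ k) → ℝ := fun t => P 1 f t - Q 1 f t with hR
  set G : ZMod (l ^ k) → ℝ := P (1 * l ^ 2) (fun s => |f s|) with hG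
  have hG0 : ∀ t, 0 ≤ G t := P_nonneg _ _ (fun s => abs_nonneg _)
  have hRG : ∀ t, |R t| ≤ (1 / l) * G t := fun t => P_sub_Q hl 1 f t
  have hl2' : 1 ≤ 1 * l ^ 2 := by rw [one_mul]; exact Nat.pow_pos hl.pos
  -- moments of R
  have hRm : ∀ K' : ℕ, E (fun t => R t ^ (2 * (K' + 1))) ≤ CK K' / l ^ 2 * F ^ (K' + 1) := by
    intro K'
    have h1 : ∀ t, R t ^ (2 * (K' + 1)) ≤ (1 / (l : ℝ)) ^ (2 * (K' + 1)) * G t ^ (2 * (K' + 1)) := by
      intro t
      rw [← mul_pow, ← Even.pow_abs (even_two_mul (K' + 1)) (R t)]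
      exact pow_le_pow_left₀ (abs_nonneg _) (hRG t) _
    refine (E_mono _ _ h1).trans ?_
    rw [E_mul]
    have h2 := crude' hl K' (1 * l ^ 2) hl2' (fun s => |f s|) (fun s => abs_nonneg _)
    rw [hF'] at h2
    refine (mul_le_mul_of_nonneg_left h2 (by positivity)).trans (le_of_eq ?_)
    have := aux_pow (l : ℝ) 1 (CK K' * F ^ (K' + 1)) hl0.ne' K'
    push_cast
    rw [one_pow] at this
    linear_combination this
  have hP2 : E (fun t => P 1 f t ^ 2) ≤ F / l := by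
    rw [le_div_iff₀ hl0, mul_comm]
    exact l2 hl hl2 f h0
  have hQ2 : E (fun t => Q 1 f t ^ 2) ≤ (2 + 2 * CK 0) * F / l := by
    have h1 : ∀ t, Q 1 f t ^ 2 ≤ 2 * P 1 f t ^ 2 + 2 * R t ^ 2 := by
      intro t
      simp only [hR]
      nlinarith [sq_nonneg (P 1 f t - (-(P 1 f t - Q 1 f t))), sq_nonneg (P 1 f t + (P 1 f t - Q 1 f t))]
    refine (E_mono _ _ h1).trans ?_
    rw [E_add, E_mul, E_mul]
    have h2 := hRm 0
    simp only [zero_add, mul_one, pow_one] at h2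
    have h3 : CK 0 / (l : ℝ) ^ 2 * F ≤ CK 0 * F / l := by
      rw [div_mul_eq_mul_div, div_le_div_iff₀ (by positivity) hl0]
      have : 0 ≤ CK 0 * F := by positivity
      nlinarith [mul_nonneg this hl0.le, mul_le_mul_of_nonneg_left hl1 (mul_nonneg this hl0.le)]
    have h4 : (2 + 2 * CK 0) * F / l = 2 * (F / l) + 2 * (CK 0 * F / l) := by ring
    rw [h4]
    linarith
  have hQbd : ∀ t, Q 1 f t ^ (2 * (K + 1)) ≤ (4 * F) ^ K * Q 1 f t ^ 2 := by
    intro t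
    have h1 := Q_sq hl 1 f t
    have h2 := Mm_le 1 le_rfl f t
    rw [Nat.cast_one, one_mul] at h2
    calc Q 1 f t ^ (2 * (K + 1)) = (Q 1 f t ^ 2) ^ K * Q 1 f t ^ 2 := by rw [pow_mul, pow_succ]
      _ ≤ _ := mul_le_mul_of_nonneg_right (pow_le_pow_left₀ (sq_nonneg _) (h1.trans (mul_le_mul_of_nonneg_left h2 (by norm_num))) _) (sq_nonneg _)
  have hQK : E (fun t => Q 1 f t ^ (2 * (K + 1))) ≤ 4 ^ K * (2 + 2 * CK 0) / l * F ^ (K + 1) := by
    refine (E_mono _ _ hQbd).trans ?_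
    rw [E_mul]
    refine (mul_le_mul_of_nonneg_left hQ2 (by positivity)).trans (le_of_eq ?_)
    rw [mul_pow]; ring
  have hpt : ∀ t, P 1 f t ^ (2 * (K + 1)) ≤ 2 ^ (2 * (K + 1)) * (Q 1 f t ^ (2 * (K + 1)) + R t ^ (2 * (K + 1))) := by
    intro t
    have h1 : P 1 f t = Q 1 f t + R t := by simp only [hR]; ring
    have h2 : |P 1 f t| ≤ |Q 1 f t| + |R t| := by rw [h1]; exact abs_add_le _ _
    have h3 := add_pow_le (abs_nonneg (Q 1 f t)) (abs_nonneg (R t)) (2 * (K + 1))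
    rw [← Even.pow_abs (even_two_mul (K + 1)) (P 1 f t), ← Even.pow_abs (even_two_mul (K + 1)) (Q 1 f t),
      ← Even.pow_abs (even_two_mul (K + 1)) (R t)]
    refine (pow_le_pow_left₀ (abs_nonneg _) h2 _).trans (h3.trans ?_)
    apply mul_le_mul_of_nonneg_right _ (by positivity)
    exact pow_le_pow_right₀ (by norm_num) (by omega)
  refine (E_mono _ _ hpt).trans ?_
  rw [E_mul, E_add]
  have h5 : CK K / (l : ℝ) ^ 2 * F ^ (K + 1) ≤ CK K / l * F ^ (K + 1) := by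
    apply mul_le_mul_of_nonneg_right _ (by positivity)
    apply div_le_div_of_nonneg_left hCKK.le hl0
    nlinarith
  have h6 := hRm K
  calc (2 : ℝ) ^ (2 * (K + 1)) * (E (fun t => Q 1 f t ^ (2 * (K + 1))) + E (fun t => R t ^ (2 * (K + 1))))
      ≤ 2 ^ (2 * (K + 1)) * (4 ^ K * (2 + 2 * CK 0) / l * F ^ (K + 1) + CK K / l * F ^ (K + 1)) := by
        apply mul_le_mul_of_nonneg_left _ (by positivity)
        linarith
    _ = CS K / l * F ^ (K + 1) := by unfold CS; ring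

end pp

end Pool.Agent.W5h22.RB
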