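import Mathlib
import Pool.Agent.W5h22.RB.L2

set_option autoImplicit false

/-! The local inequality. -/

namespace Pool.Agent.W5h22.RB
open Finset

/-- the local inequality with constant `A` modulo `n` -/
def LI (K n : ℕ) [NeZero n] (A : ℝ) : Prop := ∀ Φ : ZMod n → ℝ, (∀ s, 0 ≤ Φ s) → (∀ s, ¬ IsUnit s → Φ s = 0) →
  E (fun t => ((∑ c, Φ (t + c ^ 2)) / (n.totient : ℝ)) ^ (2 * (K + 1))) ≤ A * ((∑ s, Φ s ^ 2) / (n.totient : ℝ)) ^ (K + 1)

lemma tot_pos (n : ℕ) [NeZero n] : (0 : ℝ) < n.totient := by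
  exact_mod_cast Nat.totient_pos.2 (Nat.pos_of_ne_zero (NeZero.ne n))

lemma taylor (K : ℕ) (c H : ℝ) (hc : 0 ≤ c) : (c + H) ^ (2 * (K + 1)) ≤
    c ^ (2 * (K + 1)) + (2 * (K + 1)) * c ^ (2 * K + 1) * H + 4 ^ (K + 1) * (c ^ (2 * K) * H ^ 2 + H ^ (2 * (K + 1))) := by
  set N := 2 * K with hN
  have e : 2 * (K + 1) = N + 2 := by omega
  have e4 : (4 : ℝ) ^ (K + 1) = 2 ^ (N + 2) := by
    rw [← e, pow_mul]; norm_num
  have hev : Even N := ⟨K, by omega⟩
  have hev2 : Even (N + 2) := ⟨K + 1, by omega⟩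
  rw [e, e4, add_comm c H, add_pow, sum_range_succ', sum_range_succ']
  have hX0 : 0 ≤ c ^ N * H ^ 2 + H ^ (N + 2) := by
    have := hev2.pow_nonneg H
    positivity
  have h1 : ∀ i ∈ range (N + 1), H ^ (i + 1 + 1) * c ^ (N + 2 - (i + 1 + 1)) * ((N + 2).choose (i + 1 + 1) : ℝ) ≤
      ((N + 2).choose (i + 1 + 1) : ℝ) * (c ^ N * H ^ 2 + H ^ (N + 2)) := by
    intro i hi
    rw [mem_range] at hi
    rw [mul_comm]
    apply mul_le_mul_of_nonneg_left _ (Nat.cast_nonneg _)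
    have h2 : H ^ (i + 1 + 1) * c ^ (N + 2 - (i + 1 + 1)) ≤ |H| ^ (i + 2) * c ^ (N - i) := by
      have h3 : N + 2 - (i + 1 + 1) = N - i := by omega
      rw [h3]
      apply mul_le_mul_of_nonneg_right _ (by positivity)
      calc H ^ (i + 1 + 1) ≤ |H ^ (i + 1 + 1)| := le_abs_self _
        _ = |H| ^ (i + 2) := by rw [abs_pow]
    refine h2.trans ?_
    have hH2 : H ^ 2 = |H| ^ 2 := (sq_abs H).symm
    have hHN : H ^ (N + 2) = |H| ^ (N + 2) := (hev2.pow_abs H).symm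
    rw [hH2, hHN]
    have hA := abs_nonneg H
    rcases le_or_gt |H| c with h | h
    · have h4 : |H| ^ (i + 2) * c ^ (N - i) ≤ c ^ N * |H| ^ 2 := by
        calc |H| ^ (i + 2) * c ^ (N - i) = |H| ^ i * |H| ^ 2 * c ^ (N - i) := by rw [pow_add]
          _ ≤ c ^ i * |H| ^ 2 * c ^ (N - i) := by
              apply mul_le_mul_of_nonneg_right _ (by positivity)
              apply mul_le_mul_of_nonneg_right _ (by positivity)
              exact pow_le_pow_left₀ hA h _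
          _ = c ^ (i + (N - i)) * |H| ^ 2 := by rw [pow_add]; ring
          _ = _ := by congr 2; omega
      have h5 : 0 ≤ |H| ^ (N + 2) := by positivity
      linarith
    · have h4 : |H| ^ (i + 2) * c ^ (N - i) ≤ |H| ^ (N + 2) := by
        calc |H| ^ (i + 2) * c ^ (N - i) ≤ |H| ^ (i + 2) * |H| ^ (N - i) := by
              apply mul_le_mul_of_nonneg_left _ (by positivity)
              exact pow_le_pow_left₀ hc h.le _
          _ = |H| ^ (i + 2 + (N - i)) := by rw [← pow_add]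
          _ = _ := by congr 1; omega
      have h5 : 0 ≤ c ^ N * |H| ^ 2 := by positivity
      linarith
  have h2 : ∑ i ∈ range (N + 1), ((N + 2).choose (i + 1 + 1) : ℝ) ≤ 2 ^ (N + 2) := by
    have h3 := Nat.sum_range_choose (N + 2)
    rw [sum_range_succ', sum_range_succ'] at h3
    have h4 : ∑ i ∈ range (N + 1), (N + 2).choose (i + 1 + 1) ≤ 2 ^ (N + 2) := by omega
    exact_mod_cast h4
  have h3 := sum_le_sum h1
  rw [← sum_mul] at h3
  have h4 := mul_le_mul_of_nonneg_right h2 hX0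
  have h5 : H ^ (0 + 1) * c ^ (N + 2 - (0 + 1)) * ((N + 2).choose (0 + 1) : ℝ) = 2 * (K + 1) * c ^ (N + 1) * H := by
    have h6 : N + 2 - (0 + 1) = N + 1 := by omega
    rw [h6, zero_add, Nat.choose_one_right, pow_one]
    have h7 : ((N + 2 : ℕ) : ℝ) = 2 * (K + 1) := by rw [hN]; push_cast; ring
    rw [h7]; ring
  have h6 : H ^ 0 * c ^ (N + 2 - 0) * ((N + 2).choose 0 : ℝ) = c ^ (N + 2) := by
    rw [Nat.choose_zero_right, Nat.sub_zero, pow_zero]; push_cast; ring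
  rw [h5, h6]
  linarith

lemma superadd (K : ℕ) (a b : ℝ) (ha : 0 ≤ a) (hb : 0 ≤ b) :
    a ^ (K + 1) + (1 / 2) * (a ^ K * b + b ^ (K + 1)) ≤ (a + b) ^ (K + 1) := by
  have h1 : a ^ (K + 1) + a ^ K * b ≤ (a + b) ^ (K + 1) := by
    have : a ^ (K + 1) + a ^ K * b = a ^ K * (a + b) := by ring
    rw [this, pow_succ]
    exact mul_le_mul_of_nonneg_right (pow_le_pow_left₀ ha (by linarith) _) (by linarith)
  have h2 : a ^ (K + 1) + b ^ (K + 1) ≤ (a + b) ^ (K + 1) := by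
    have h3 : (a + b) ^ (K + 1) = (a + b) ^ K * a + (a + b) ^ K * b := by ring
    rw [h3, pow_succ, pow_succ]
    apply add_le_add
    · exact mul_le_mul_of_nonneg_right (pow_le_pow_left₀ ha (by linarith) _) ha
    · exact mul_le_mul_of_nonneg_right (pow_le_pow_left₀ hb (by linarith) _) hb
  linarith

lemma card_unit_le (n : ℕ) [NeZero n] (S : Finset (ZMod n)) (hS : ∀ s ∈ S, IsUnit s) : #S ≤ n.totient := by
  classical
  rw [← ZMod.card_units_eq_totient, ← card_univ]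
  calc #S ≤ #(Finset.image (Units.val : (ZMod n)ˣ → ZMod n) univ) := by
        apply card_le_card
        intro s hs
        obtain ⟨u, hu⟩ := hS s hs
        rw [mem_image]
        exact ⟨u, mem_univ _, hu⟩
    _ ≤ _ := card_image_le

lemma sq_le_units {n : ℕ} [NeZero n] (Φ : ZMod n → ℝ) (hu : ∀ s, ¬ IsUnit s → Φ s = 0) :
    (∑ s, Φ s) ^ 2 ≤ n.totient * ∑ s, Φ s ^ 2 := by
  classical
  have h1 : ∑ s, Φ s = ∑ s ∈ univ.filter (fun s : ZMod n => IsUnit s), Φ s := by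
    rw [sum_filter]
    apply sum_congr rfl
    intro s _
    split_ifs with h
    · rfl
    · exact hu s h
  rw [h1]
  refine sq_sum_le_card_mul_sum_sq.trans ?_
  apply mul_le_mul
  · exact_mod_cast card_unit_le n _ (fun s hs => (mem_filter.1 hs).2)
  · exact sum_le_sum_of_subset_of_nonneg (filter_subset _ _) (fun s _ _ => sq_nonneg _)
  · exact sum_nonneg fun _ _ => sq_nonneg _
  · exact Nat.cast_nonneg _

/-- the constants -/
noncomputable def DD (K : ℕ) : ℝ := 4 ^ (K + 1) * (4 + 8 ^ (K + 1) * CS K)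

lemma DD_pos (K : ℕ) : 0 < DD K := by
  unfold DD
  have := CS_pos K
  positivity

section pp
variable {l k : ℕ} [NeZero (l ^ k)]

lemma tot_pp (hl : l.Prime) (k : ℕ) : (l : ℝ) * ((l ^ k : ℕ) - ((l ^ k).totient : ℝ)) ≤ ((l ^ k : ℕ) : ℝ) ∧
    ((l ^ k : ℕ) : ℝ) ≤ 2 * ((l ^ k).totient : ℝ) := by
  have hl2 : (2 : ℝ) ≤ l := by exact_mod_cast hl.two_le
  rcases Nat.eq_zero_or_pos k with rfl | hk
  · simp
  · rw [Nat.totient_prime_pow hl hk]
    have h1 : ((l ^ k : ℕ) : ℝ) = (l : ℝ) ^ (k - 1) * l := by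
      push_cast
      rw [← pow_succ]; congr 1; omega
    rw [h1]
    push_cast [Nat.cast_sub hl.one_lt.le]
    have h2 : (0 : ℝ) ≤ (l : ℝ) ^ (k - 1) := by positivity
    constructor
    · apply le_of_eq; ring
    · nlinarith

lemma LI_crude (hl : l.Prime) (K : ℕ) : LI K (l ^ k) (2 ^ (K + 1) * CK K) := by
  intro Φ h0 hu
  have hn : (0 : ℝ) < ((l ^ k : ℕ) : ℝ) := n_pos
  have hφ : (0 : ℝ) < ((l ^ k).totient : ℝ) := tot_pos _
  have h2 := (tot_pp hl k).2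
  set n : ℝ := ((l ^ k : ℕ) : ℝ) with hnd
  set φ : ℝ := ((l ^ k).totient : ℝ) with hφd
  have e1 : ∀ t, ((∑ c, Φ (t + c ^ 2)) / φ) ^ (2 * (K + 1)) = (n / φ) ^ (2 * (K + 1)) * P 1 Φ t ^ (2 * (K + 1)) := by
    intro t
    rw [← mul_pow]
    congr 1
    unfold P
    simp only [Nat.cast_one, one_mul]
    rw [← hnd]
    field_simp
  simp_rw [e1]
  rw [E_mul]
  have h3 := crude' (k := k) hl K 1 le_rfl Φ h0
  rw [Nat.cast_one, one_pow, mul_one] at h3
  have e2 : E (fun s => Φ s ^ 2) = (φ / n) * ((∑ s, Φ s ^ 2) / φ) := by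
    unfold E
    rw [← hnd]
    field_simp
  rw [e2] at h3
  have hS : 0 ≤ (∑ s, Φ s ^ 2) / φ := div_nonneg (sum_nonneg fun _ _ => sq_nonneg _) hφ.le
  have hCK := CK_pos K
  refine (mul_le_mul_of_nonneg_left h3 (by positivity)).trans ?_
  have e3 : (n / φ) ^ (2 * (K + 1)) * (CK K * (φ / n * ((∑ s, Φ s ^ 2) / φ)) ^ (K + 1)) =
      (n / φ) ^ (K + 1) * CK K * ((∑ s, Φ s ^ 2) / φ) ^ (K + 1) := by
    have e4 : (n / φ) ^ (2 * (K + 1)) = (n / φ) ^ (K + 1) * (n / φ) ^ (K + 1) := by rw [two_mul, pow_add]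
    have e5 : (n / φ) ^ (K + 1) * (φ / n) ^ (K + 1) = 1 := by
      rw [← mul_pow]
      have : n / φ * (φ / n) = 1 := by field_simp
      rw [this, one_pow]
    rw [e4, mul_pow]
    linear_combination ((n / φ) ^ (K + 1) * CK K * ((∑ s, Φ s ^ 2) / φ) ^ (K + 1)) * e5
  rw [e3]
  apply mul_le_mul_of_nonneg_right _ (by positivity)
  apply mul_le_mul_of_nonneg_right _ hCK.le
  apply pow_le_pow_left₀ (by positivity)
  rw [div_le_iff₀ hφ]
  exact h2

theorem LI_good (hl : l.Prime) (hl2 : l ≠ 2) (K : ℕ) (hD : 2 * DD K ≤ l) : LI K (l ^ k) (1 + DD K / (l : ℝ) ^ 2) := by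
  intro Φ h0 hu
  have hn : (0 : ℝ) < ((l ^ k : ℕ) : ℝ) := n_pos
  have hφ : (0 : ℝ) < ((l ^ k).totient : ℝ) := tot_pos _
  obtain ⟨hρ1, hρ2⟩ := tot_pp hl k
  have hφn : ((l ^ k).totient : ℝ) ≤ ((l ^ k : ℕ) : ℝ) := by exact_mod_cast Nat.totient_le _
  have hcs := sq_le_units Φ hu
  set n : ℝ := ((l ^ k : ℕ) : ℝ) with hnd
  set φ : ℝ := ((l ^ k).totient : ℝ) with hφd
  have hl0 : (0 : ℝ) < l := by exact_mod_cast hl.pos
  have hl1 : (1 : ℝ) ≤ l := by exact_mod_cast hl.one_lt.le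
  have hCS := CS_pos K
  have hDD := DD_pos K
  set S1 := ∑ s, Φ s with hS1
  set S2 := ∑ s, Φ s ^ 2 with hS2
  have hS10 : 0 ≤ S1 := sum_nonneg fun s _ => h0 s
  set c : ℝ := S1 / φ with hc
  have hc0 : 0 ≤ c := div_nonneg hS10 hφ.le
  set y : ℝ := S2 / φ - c ^ 2 with hy
  have hy0 : 0 ≤ y := by
    rw [hy, hc, div_pow, sub_nonneg, div_le_div_iff₀ (by positivity) hφ]
    nlinarith
  set f : ZMod (l ^ k) → ℝ := fun s => Φ s - S1 / n with hf
  have hf0 : ∑ s, f s = 0 := by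
    simp only [hf]
    rw [sum_sub_distrib, sum_const, card_univ, ZMod.card, nsmul_eq_mul, ← hnd, mul_div_cancel₀ _ hn.ne', sub_self]
  set F := E (fun s => f s ^ 2) with hF
  have hF0 : 0 ≤ F := E_nonneg _ (fun _ => sq_nonneg _)
  have hFe : F = S2 / n - (S1 / n) ^ 2 := by
    rw [hF]; unfold E
    have h1 : ∑ s, f s ^ 2 = S2 - 2 * (S1 / n) * S1 + n * (S1 / n) ^ 2 := by
      have h2 : ∀ s, f s ^ 2 = Φ s ^ 2 - 2 * (S1 / n) * Φ s + (S1 / n) ^ 2 := by
        intro s; simp only [hf]; ring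
      simp_rw [h2]
      rw [sum_add_distrib, sum_sub_distrib, ← mul_sum, sum_const, card_univ, ZMod.card, nsmul_eq_mul]
    rw [h1, ← hnd]
    field_simp
    ring
  have hFv : F ≤ c ^ 2 / l + y := by
    have h1 : S2 = φ * (c ^ 2 + y) := by rw [hy]; field_simp; ring
    have h2 : S1 = φ * c := by rw [hc]; field_simp
    rw [hFe, h1, h2]
    have h3 : φ * (c ^ 2 + y) / n - (φ * c / n) ^ 2 = (φ / n) * (((n - φ) / n) * c ^ 2 + y) := by
      field_simp
      ring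
    rw [h3]
    have h4 : (n - φ) / n ≤ 1 / l := by
      rw [div_le_div_iff₀ hn hl0]
      linarith
    have h5 : φ / n ≤ 1 := by rw [div_le_one hn]; exact hφn
    have h6 : ((n - φ) / n) * c ^ 2 ≤ c ^ 2 / l := by
      have := mul_le_mul_of_nonneg_right h4 (sq_nonneg c)
      calc (n - φ) / n * c ^ 2 ≤ 1 / (l : ℝ) * c ^ 2 := this
        _ = c ^ 2 / l := by ring
    have h7 : 0 ≤ (n - φ) / n * c ^ 2 := by
      have : 0 ≤ n - φ := by linarith
      positivity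
    calc φ / n * ((n - φ) / n * c ^ 2 + y) ≤ 1 * ((n - φ) / n * c ^ 2 + y) := mul_le_mul_of_nonneg_right h5 (by linarith)
      _ ≤ _ := by linarith
  have hx : n / φ ≤ 2 := by rw [div_le_iff₀ hφ]; exact hρ2
  have hx0 : 0 ≤ n / φ := by positivity
  have e1 : ∀ t, (∑ c, Φ (t + c ^ 2)) / φ = c + (n / φ) * P 1 f t := by
    intro t
    have h1 : ∑ c, Φ (t + c ^ 2) = n * P 1 f t + S1 := by
      unfold P
      simp only [Nat.cast_one, one_mul, hf]
      rw [sum_sub_distrib, sum_const, card_univ, ZMod.card, nsmul_eq_mul, ← hnd]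
      field_simp
      ring
    rw [h1, hc]
    field_simp
    ring
  simp_rw [e1]
  -- moments of H
  have hEP : E (P 1 f) = 0 := by
    have h1 : E (P 1 f) = E (fun t => E (fun v : ZMod (l ^ k) => f (t + v ^ 2))) := by
      congr 1
      funext t
      unfold P E
      simp only [Nat.cast_one, one_mul]
    rw [h1, E_comm (fun t v : ZMod (l ^ k) => f (t + v ^ 2))]
    have h2 : ∀ v : ZMod (l ^ k), E (fun t => f (t + v ^ 2)) = 0 := by
      intro v
      rw [E_shift f]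
      unfold E
      rw [hf0, zero_div]
    simp_rw [h2]
    exact E_const 0
  have hE2 : E (fun t => (n / φ * P 1 f t) ^ 2) ≤ 4 * (c ^ 2 / l + y) / l := by
    have h1 : ∀ t, (n / φ * P 1 f t) ^ 2 = (n / φ) ^ 2 * P 1 f t ^ 2 := fun t => mul_pow _ _ _
    simp_rw [h1]
    rw [E_mul]
    have h2 : E (fun t => P 1 f t ^ 2) ≤ F / l := by
      rw [le_div_iff₀ hl0, mul_comm]
      exact l2 hl hl2 f hf0
    have h3 : (n / φ) ^ 2 ≤ 4 := by nlinarith
    have h4 : 0 ≤ E (fun t => P 1 f t ^ 2) := E_nonneg _ (fun _ => sq_nonneg _)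
    calc (n / φ) ^ 2 * E (fun t => P 1 f t ^ 2) ≤ 4 * (F / l) := mul_le_mul h3 h2 h4 (by norm_num)
      _ ≤ 4 * ((c ^ 2 / l + y) / l) := by
          apply mul_le_mul_of_nonneg_left _ (by norm_num)
          exact div_le_div_of_nonneg_right hFv hl0.le
      _ = _ := by ring
  have hEK : E (fun t => (n / φ * P 1 f t) ^ (2 * (K + 1))) ≤ 4 ^ (K + 1) * (CS K / l * (2 ^ (K + 1) * (c ^ (2 * (K + 1)) / l + y ^ (K + 1)))) := by
    have h1 : ∀ t, (n / φ * P 1 f t) ^ (2 * (K + 1)) = (n / φ) ^ (2 * (K + 1)) * P 1 f t ^ (2 * (K + 1)) := fun t => mul_pow _ _ _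
    simp_rw [h1]
    rw [E_mul]
    have h2 := small (k := k) hl hl2 K f hf0
    have h3 : (n / φ) ^ (2 * (K + 1)) ≤ 4 ^ (K + 1) := by
      calc (n / φ) ^ (2 * (K + 1)) ≤ 2 ^ (2 * (K + 1)) := pow_le_pow_left₀ hx0 hx _
        _ = 4 ^ (K + 1) := by rw [pow_mul]; norm_num
    have h4 : 0 ≤ E (fun t => P 1 f t ^ (2 * (K + 1))) := E_nonneg _ (fun t => (even_two_mul (K + 1)).pow_nonneg _)
    refine mul_le_mul h3 (h2.trans ?_) h4 (by positivity)
    apply mul_le_mul_of_nonneg_left _ (by positivity)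
    rw [← hF]
    have h5 : (c ^ 2 / l) ^ (K + 1) ≤ c ^ (2 * (K + 1)) / l := by
      rw [div_pow, ← pow_mul]
      apply div_le_div_of_nonneg_left (by positivity) hl0
      calc (l : ℝ) = l ^ 1 := (pow_one _).symm
        _ ≤ (l : ℝ) ^ (K + 1) := pow_le_pow_right₀ hl1 (by omega)
    calc F ^ (K + 1) ≤ (c ^ 2 / l + y) ^ (K + 1) := pow_le_pow_left₀ hF0 hFv _
      _ ≤ 2 ^ (K + 1 - 1) * ((c ^ 2 / l) ^ (K + 1) + y ^ (K + 1)) := add_pow_le (by positivity) hy0 (K + 1)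
      _ ≤ 2 ^ (K + 1) * (c ^ (2 * (K + 1)) / l + y ^ (K + 1)) := by
          apply mul_le_mul
          · exact pow_le_pow_right₀ (by norm_num) (by omega)
          · linarith
          · positivity
          · positivity
  -- pointwise
  have hpt : ∀ t, (c + n / φ * P 1 f t) ^ (2 * (K + 1)) ≤ (c ^ (2 * (K + 1)) + (2 * (K + 1) * c ^ (2 * K + 1) * (n / φ)) * P 1 f t) +
      (4 ^ (K + 1) * c ^ (2 * K)) * (n / φ * P 1 f t) ^ 2 + 4 ^ (K + 1) * (n / φ * P 1 f t) ^ (2 * (K + 1)) := by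
    intro t
    have := taylor K c (n / φ * P 1 f t) hc0
    refine this.trans (le_of_eq ?_)
    ring
  refine (E_mono _ _ hpt).trans ?_
  rw [E_add, E_add, E_add, E_const, E_mul, E_mul, E_mul, hEP, mul_zero, add_zero]
  have h9 : S2 / φ = c ^ 2 + y := by rw [hy]; ring
  rw [h9]
  have hsup := superadd K (c ^ 2) y (sq_nonneg c) hy0
  rw [← pow_mul, ← pow_mul] at hsup
  have t1 := mul_le_mul_of_nonneg_left hE2 (show 0 ≤ 4 ^ (K + 1) * c ^ (2 * K) by positivity)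
  have t2 := mul_le_mul_of_nonneg_left hEK (show (0 : ℝ) ≤ 4 ^ (K + 1) by positivity)
  have e2 : c ^ (2 * K) * c ^ 2 = c ^ (2 * (K + 1)) := by rw [← pow_add]; congr 1
  have e3 : (2 : ℝ) ^ (K + 1) * 4 ^ (K + 1) = 8 ^ (K + 1) := by rw [← mul_pow]; norm_num
  have hA : c ^ (2 * (K + 1)) + 4 ^ (K + 1) * c ^ (2 * K) * (4 * (c ^ 2 / l + y) / l) +
      4 ^ (K + 1) * (4 ^ (K + 1) * (CS K / l * (2 ^ (K + 1) * (c ^ (2 * (K + 1)) / l + y ^ (K + 1))))) ≤
      c ^ (2 * (K + 1)) * (1 + DD K / l ^ 2) + (DD K / l) * (c ^ (2 * K) * y + y ^ (K + 1)) := by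
    have e4 : DD K = 4 ^ (K + 1) * 4 + 4 ^ (K + 1) * (4 ^ (K + 1) * (CS K * 2 ^ (K + 1))) := by
      unfold DD
      rw [← e3]; ring
    have e5 : c ^ (2 * (K + 1)) + 4 ^ (K + 1) * c ^ (2 * K) * (4 * (c ^ 2 / l + y) / l) +
      4 ^ (K + 1) * (4 ^ (K + 1) * (CS K / l * (2 ^ (K + 1) * (c ^ (2 * (K + 1)) / l + y ^ (K + 1))))) =
      c ^ (2 * (K + 1)) * (1 + DD K / l ^ 2) + (4 ^ (K + 1) * 4 / l) * (c ^ (2 * K) * y) +
        (4 ^ (K + 1) * (4 ^ (K + 1) * (CS K * 2 ^ (K + 1))) / l) * y ^ (K + 1) := by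
      rw [← e2, e4]
      field_simp
      ring
    rw [e5]
    have p1 : 0 ≤ c ^ (2 * K) * y := by positivity
    have p2 : 0 ≤ y ^ (K + 1) := by positivity
    have q1 : 4 ^ (K + 1) * 4 / (l : ℝ) ≤ DD K / l := by
      apply div_le_div_of_nonneg_right _ hl0.le
      rw [e4]
      have : 0 ≤ 4 ^ (K + 1) * (4 ^ (K + 1) * (CS K * 2 ^ (K + 1))) := by positivity
      linarith
    have q2 : 4 ^ (K + 1) * (4 ^ (K + 1) * (CS K * 2 ^ (K + 1))) / (l : ℝ) ≤ DD K / l := by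
      apply div_le_div_of_nonneg_right _ hl0.le
      rw [e4]
      have : (0 : ℝ) ≤ 4 ^ (K + 1) * 4 := by positivity
      linarith
    have r1 := mul_le_mul_of_nonneg_right q1 p1
    have r2 := mul_le_mul_of_nonneg_right q2 p2
    linarith
  have hhalf : DD K / (l : ℝ) ≤ 1 / 2 := by
    rw [div_le_div_iff₀ hl0 (by norm_num)]
    linarith
  have hB : c ^ (2 * (K + 1)) * (1 + DD K / (l : ℝ) ^ 2) + (DD K / l) * (c ^ (2 * K) * y + y ^ (K + 1)) ≤
      (1 + DD K / (l : ℝ) ^ 2) * (c ^ 2 + y) ^ (K + 1) := by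
    have p1 : 0 ≤ c ^ (2 * K) * y + y ^ (K + 1) := by positivity
    have p3 : 0 ≤ DD K / (l : ℝ) ^ 2 := by positivity
    have r1 := mul_le_mul_of_nonneg_right hhalf p1
    have r2 := mul_le_mul_of_nonneg_left hsup (show 0 ≤ 1 + DD K / (l : ℝ) ^ 2 by positivity)
    have r3 : 0 ≤ DD K / (l : ℝ) ^ 2 * (1 / 2 * (c ^ (2 * K) * y + y ^ (K + 1))) := by positivity
    nlinarith
  linarith

end pp

end Pool.Agent.W5h22.RB
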