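import Mathlib
import Pool.Agent.W5h22.RB.L3

set_option autoImplicit false

/-! The local inequality for all moduli with one constant. -/

namespace Pool.Agent.W5h22.RB
open Finset

lemma E_sum {n : ℕ} [NeZero n] {ι : Type*} (S : Finset ι) (g : ι → ZMod n → ℝ) : E (fun t => ∑ s ∈ S, g s t) = ∑ s ∈ S, E (g s) := by
  unfold E
  rw [← sum_div, sum_comm]

lemma mink {n : ℕ} [NeZero n] {ι : Type*} (S : Finset ι) (x : ι → ZMod n → ℝ) (m : ι → ℝ) (hx : ∀ s ∈ S, ∀ t, 0 ≤ x s t)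
    (hm : ∀ s ∈ S, 0 ≤ m s) (K : ℕ) (B : ℝ) (hB : 0 ≤ B) (h : ∀ s ∈ S, E (fun t => x s t ^ (K + 1)) ≤ B * m s ^ (K + 1)) :
    E (fun t => (∑ s ∈ S, x s t) ^ (K + 1)) ≤ B * (∑ s ∈ S, m s) ^ (K + 1) := by
  have hn : (0 : ℝ) < n := n_pos
  have hzero : ∀ s ∈ S, m s = 0 → ∀ t, x s t = 0 := by
    intro s hs hms t
    have h1 := h s hs
    rw [hms, zero_pow (by omega), mul_zero] at h1
    unfold E at h1
    have h2 : 0 ≤ ∑ t, x s t ^ (K + 1) := sum_nonneg fun t _ => pow_nonneg (hx s hs t) _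
    have h3 : ∑ t, x s t ^ (K + 1) = 0 := by
      have h4 := div_nonneg h2 hn.le
      have h5 : (∑ t, x s t ^ (K + 1)) / (n : ℝ) = 0 := le_antisymm h1 h4
      rw [div_eq_zero_iff] at h5
      rcases h5 with h5 | h5
      · exact h5
      · exact absurd h5 hn.ne'
    have h4 := (sum_eq_zero_iff_of_nonneg (fun t _ => pow_nonneg (hx s hs t) _)).1 h3 t (mem_univ t)
    exact pow_eq_zero_iff (by omega) |>.1 h4
  set M := ∑ s ∈ S, m s with hM
  have hM0 : 0 ≤ M := sum_nonneg hm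
  rcases hM0.eq_or_lt with h0 | h0
  · have h1 : ∀ s ∈ S, m s = 0 := (sum_eq_zero_iff_of_nonneg hm).1 h0.symm
    have h2 : ∀ t, ∑ s ∈ S, x s t = 0 := fun t => sum_eq_zero fun s hs => hzero s hs (h1 s hs) t
    simp_rw [h2]
    rw [zero_pow (by omega), E_const, ← h0, zero_pow (by omega), mul_zero]
  · have hpt : ∀ t, (∑ s ∈ S, x s t) ^ (K + 1) ≤ ∑ s ∈ S, (M ^ (K + 1) * (m s / M) * (1 / m s) ^ (K + 1)) * x s t ^ (K + 1) := by
      intro t
      have h1 : ∑ s ∈ S, x s t = M * ∑ s ∈ S, (m s / M) * (x s t / m s) := by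
        rw [mul_sum]
        apply sum_congr rfl
        intro s hs
        rcases eq_or_ne (m s) 0 with h2 | h2
        · rw [hzero s hs h2 t, h2]; simp
        · field_simp
      rw [h1, mul_pow]
      have h2 := Real.pow_arith_mean_le_arith_mean_pow S (fun s => m s / M) (fun s => x s t / m s)
        (fun s hs => div_nonneg (hm s hs) h0.le) (by rw [← sum_div, ← hM, div_self h0.ne'])
        (fun s hs => div_nonneg (hx s hs t) (hm s hs)) (K + 1)
      calc M ^ (K + 1) * (∑ s ∈ S, m s / M * (x s t / m s)) ^ (K + 1) ≤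
          M ^ (K + 1) * ∑ s ∈ S, m s / M * (x s t / m s) ^ (K + 1) := mul_le_mul_of_nonneg_left h2 (by positivity)
        _ = _ := by
            rw [mul_sum]
            apply sum_congr rfl
            intro s _
            rw [div_pow, one_div, inv_pow]
            ring
    refine (E_mono _ _ hpt).trans ?_
    rw [E_sum]
    calc ∑ s ∈ S, E (fun t => (M ^ (K + 1) * (m s / M) * (1 / m s) ^ (K + 1)) * x s t ^ (K + 1)) ≤
        ∑ s ∈ S, M ^ (K + 1) * (m s / M) * B := by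
          apply sum_le_sum
          intro s hs
          rw [E_mul]
          rcases eq_or_ne (m s) 0 with h2 | h2
          · rw [h2]; simp
          · have hms : 0 < m s := lt_of_le_of_ne (hm s hs) (Ne.symm h2)
            refine (mul_le_mul_of_nonneg_left (h s hs) (by positivity)).trans (le_of_eq ?_)
            rw [one_div, inv_pow]
            have h3 : m s ^ (K + 1) ≠ 0 := pow_ne_zero _ h2
            calc M ^ (K + 1) * (m s / M) * (m s ^ (K + 1))⁻¹ * (B * m s ^ (K + 1)) =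
                (M ^ (K + 1) * (m s / M) * B) * ((m s ^ (K + 1))⁻¹ * m s ^ (K + 1)) := by ring
              _ = _ := by rw [inv_mul_cancel₀ h3, mul_one]
      _ = B * M ^ (K + 1) := by
          rw [← sum_mul, ← mul_sum, ← sum_div, ← hM, div_self h0.ne']
          ring

section mul
variable {a b : ℕ} [NeZero a] [NeZero b] [NeZero (a * b)]

lemma E_prod (hab : a.Coprime b) (g : ZMod (a * b) → ℝ) :
    E g = E (fun t₁ : ZMod a => E (fun t₂ : ZMod b => g ((ZMod.chineseRemainder hab).symm (t₁, t₂)))) := by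
  have h1 : ∑ t, g t = ∑ x : ZMod a × ZMod b, g ((ZMod.chineseRemainder hab).symm x) :=
    ((ZMod.chineseRemainder hab).symm.toEquiv.sum_comp g).symm
  unfold E
  rw [h1, Fintype.sum_prod_type, ← sum_div, div_div]
  congr 1
  push_cast
  ring

theorem LI_mul (hab : a.Coprime b) (K : ℕ) (A B : ℝ) (hA : 0 ≤ A) (hB : 0 ≤ B) (h1 : LI K a A) (h2 : LI K b B) :
    LI K (a * b) (A * B) := by
  intro Φ h0 hu
  set e := (ZMod.chineseRemainder hab).symm with he
  have hφa : (0 : ℝ) < a.totient := tot_pos a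
  have hφb : (0 : ℝ) < b.totient := tot_pos b
  have hsum : ∀ g : ZMod (a * b) → ℝ, ∑ t, g t = ∑ t₁ : ZMod a, ∑ t₂ : ZMod b, g (e (t₁, t₂)) := by
    intro g
    rw [← Fintype.sum_prod_type (f := fun x : ZMod a × ZMod b => g (e x))]
    exact (e.toEquiv.sum_comp g).symm
  have hunit : ∀ s₁ : ZMod a, ∀ s₂ : ZMod b, IsUnit (e (s₁, s₂)) ↔ IsUnit s₁ ∧ IsUnit s₂ := by
    intro s₁ s₂
    exact (MulEquiv.isUnit_map e).trans Prod.isUnit_iff
  have htot : ((a * b).totient : ℝ) = a.totient * b.totient := by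
    rw [Nat.totient_mul hab]; push_cast; ring
  set G : ZMod b → ZMod a → ℝ := fun t₂ s₁ => (∑ c₂ : ZMod b, Φ (e (s₁, t₂ + c₂ ^ 2))) / b.totient with hG
  have hG0 : ∀ t₂ s₁, 0 ≤ G t₂ s₁ := fun t₂ s₁ => div_nonneg (sum_nonneg fun _ _ => h0 _) hφb.le
  have hGu : ∀ t₂ s₁, ¬ IsUnit s₁ → G t₂ s₁ = 0 := by
    intro t₂ s₁ hs
    simp only [hG]
    rw [sum_eq_zero, zero_div]
    intro c₂ _
    apply hu
    rw [hunit]
    tauto
  have key : ∀ t₁ t₂, (∑ c, Φ (e (t₁, t₂) + c ^ 2)) / ((a * b).totient : ℝ) = (∑ c₁, G t₂ (t₁ + c₁ ^ 2)) / a.totient := by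
    intro t₁ t₂
    rw [hsum]
    simp only [hG]
    rw [← sum_div, div_div, htot]
    congr 1
    · apply sum_congr rfl
      intro c₁ _
      apply sum_congr rfl
      intro c₂ _
      rw [← map_pow, ← map_add]
      rfl
    · ring
  rw [E_prod hab]
  have e1 : E (fun t₁ : ZMod a => E (fun t₂ : ZMod b => ((∑ c, Φ (e (t₁, t₂) + c ^ 2)) / ((a * b).totient : ℝ)) ^ (2 * (K + 1)))) =
      E (fun t₁ : ZMod a => E (fun t₂ : ZMod b => ((∑ c₁, G t₂ (t₁ + c₁ ^ 2)) / a.totient) ^ (2 * (K + 1)))) := by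
    simp_rw [key]
  have e2 : E (fun t₁ : ZMod a => E (fun t₂ : ZMod b => ((∑ c₁, G t₂ (t₁ + c₁ ^ 2)) / a.totient) ^ (2 * (K + 1)))) =
      E (fun t₂ : ZMod b => E (fun t₁ : ZMod a => ((∑ c₁, G t₂ (t₁ + c₁ ^ 2)) / a.totient) ^ (2 * (K + 1)))) := by
    unfold E
    rw [← sum_div, ← sum_div, sum_comm, div_right_comm]
  rw [e1, e2]
  have e3 : ∀ t₂ : ZMod b, E (fun t₁ : ZMod a => ((∑ c₁, G t₂ (t₁ + c₁ ^ 2)) / a.totient) ^ (2 * (K + 1))) ≤
      A * (∑ s₁, G t₂ s₁ ^ 2 / a.totient) ^ (K + 1) := by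
    intro t₂
    rw [← sum_div]
    exact h1 (G t₂) (hG0 t₂) (hGu t₂)
  refine (E_mono _ _ e3).trans ?_
  rw [E_mul, mul_assoc]
  apply mul_le_mul_of_nonneg_left _ hA
  have hmk := mink (univ : Finset (ZMod a)) (fun s₁ (t₂ : ZMod b) => G t₂ s₁ ^ 2 / a.totient)
    (fun s₁ => ((∑ s₂, Φ (e (s₁, s₂)) ^ 2) / b.totient) / a.totient)
    (fun s₁ _ t₂ => by positivity) (fun s₁ _ => by positivity) K B hB (by
      intro s₁ _
      have h3 : ∀ t₂ : ZMod b, (G t₂ s₁ ^ 2 / a.totient) ^ (K + 1) = (1 / (a.totient : ℝ)) ^ (K + 1) *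
          ((∑ c₂ : ZMod b, Φ (e (s₁, t₂ + c₂ ^ 2))) / b.totient) ^ (2 * (K + 1)) := by
        intro t₂
        simp only [hG]
        rw [pow_mul, ← mul_pow]
        congr 1
        ring
      simp_rw [h3]
      rw [E_mul]
      by_cases hs : IsUnit s₁
      · have h4 := h2 (fun s₂ => Φ (e (s₁, s₂))) (fun _ => h0 _) (fun s₂ hs₂ => by
          apply hu
          rw [hunit]
          tauto)
        refine (mul_le_mul_of_nonneg_left h4 (by positivity)).trans (le_of_eq ?_)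
        generalize (∑ s, Φ (e (s₁, s)) ^ 2) / (b.totient : ℝ) = X
        have h6 : (X / (a.totient : ℝ)) ^ (K + 1) = X ^ (K + 1) * (1 / (a.totient : ℝ)) ^ (K + 1) := by
          rw [← mul_pow, mul_one_div]
        rw [h6]; ring
      · have h5 : ∀ s₂, Φ (e (s₁, s₂)) = 0 := fun s₂ => hu _ (by rw [hunit]; tauto)
        simp_rw [h5]
        rw [sum_const_zero, zero_div, zero_pow (by omega), E_const, mul_zero]
        positivity)
  refine hmk.trans (le_of_eq ?_)
  congr 2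
  rw [hsum (fun s => Φ s ^ 2), htot, ← sum_div, ← sum_div]
  rw [div_div, mul_comm (b.totient : ℝ)]

end mul

/-- the constant at a prime -/
noncomputable def Bl (K l : ℕ) : ℝ := if l ≠ 2 ∧ 2 * DD K ≤ l then 1 + DD K / (l : ℝ) ^ 2 else 2 ^ (K + 1) * CK K

lemma one_le_CK (K : ℕ) : 1 ≤ CK K := by
  unfold CK
  have h1 : (1 : ℝ) ≤ (1 + 4 * ((K + 1 : ℕ) : ℝ)) ^ (2 * (K + 1)) := one_le_pow₀ (by
    have : (0 : ℝ) ≤ ((K + 1 : ℕ) : ℝ) := Nat.cast_nonneg _
    linarith)
  have h2 : (1 : ℝ) ≤ 4 ^ (K + 1) := one_le_pow₀ (by norm_num)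
  nlinarith

lemma Bl_one (K l : ℕ) : 1 ≤ Bl K l := by
  unfold Bl
  have := DD_pos K
  split_ifs
  · have h1 : 0 ≤ DD K / (l : ℝ) ^ 2 := by positivity
    linarith
  · have h1 := one_le_CK K
    have h2 : (1 : ℝ) ≤ 2 ^ (K + 1) := one_le_pow₀ (by norm_num)
    nlinarith

lemma LI_pp {l k : ℕ} [NeZero (l ^ k)] (hl : l.Prime) (K : ℕ) : LI K (l ^ k) (Bl K l) := by
  unfold Bl
  split_ifs with h
  · exact LI_good hl h.1 K h.2
  · exact LI_crude hl K

lemma LI_mono {n : ℕ} [NeZero n] (K : ℕ) (A B : ℝ) (hAB : A ≤ B) (h : LI K n A) : LI K n B := by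
  intro Φ h0 hu
  refine (h Φ h0 hu).trans ?_
  apply mul_le_mul_of_nonneg_right hAB
  have := tot_pos n
  positivity

theorem LI_all (K n : ℕ) : ∀ hn : NeZero n, LI K n (∏ l ∈ n.primeFactors, Bl K l) := by
  induction n using Nat.recOnPrimeCoprime with
  | zero => intro hn; exact absurd rfl hn.out
  | prime_pow p k hp =>
    intro hn
    rcases Nat.eq_zero_or_pos k with rfl | hk
    · refine LI_mono K 1 _ ?_ ?_
      · simp
      · intro Φ h0 hu
        have hs : Subsingleton (ZMod (p ^ 0)) := by rw [pow_zero]; infer_instance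
        have h1 : ∀ g : ZMod (p ^ 0) → ℝ, ∑ s, g s = g 0 := by
          intro g
          rw [Finset.sum_eq_single 0]
          · intro b _ hb; exact absurd (Subsingleton.elim b 0) hb
          · intro h; exact absurd (mem_univ _) h
        unfold E
        rw [h1, h1, h1]
        have h2 : (0 : ZMod (p ^ 0)) + 0 ^ 2 = 0 := Subsingleton.elim _ _
        rw [h2]
        simp [pow_mul]
    · rw [Nat.primeFactors_prime_pow (by omega) hp, prod_singleton]
      exact LI_pp hp K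
  | coprime a b ha hb hab iha ihb =>
    intro hn
    have ha' : NeZero a := ⟨by omega⟩
    have hb' : NeZero b := ⟨by omega⟩
    rw [Nat.Coprime.primeFactors_mul hab, prod_union (Nat.Coprime.disjoint_primeFactors hab)]
    exact LI_mul hab K _ _ (prod_nonneg fun l _ => zero_le_one.trans (Bl_one K l))
      (prod_nonneg fun l _ => zero_le_one.trans (Bl_one K l)) (iha ha') (ihb hb')

/-- **The local inequality**, one constant for all moduli. -/
theorem local_ineq (K : ℕ) : ∃ A : ℝ, 1 ≤ A ∧ ∀ n : ℕ, ∀ hn : NeZero n, LI K n A := by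
  have hD := DD_pos K
  have hC := one_le_CK K
  set L0 : ℕ := ⌈2 * DD K⌉₊ + 3 with hL0
  set Ab : ℝ := 2 ^ (K + 1) * CK K with hAb
  have hAb1 : 1 ≤ Ab := by
    have h2 : (1 : ℝ) ≤ 2 ^ (K + 1) := one_le_pow₀ (by norm_num)
    nlinarith
  set T : ℝ := ∑' n : ℕ, 1 / (n : ℝ) ^ 2 with hT
  have hsumm : Summable (fun n : ℕ => 1 / (n : ℝ) ^ 2) := Real.summable_one_div_nat_pow.2 (by norm_num)
  have hT0 : 0 ≤ T := tsum_nonneg fun n => by positivity
  refine ⟨Ab ^ L0 * Real.exp (DD K * T), ?_, ?_⟩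
  · have h1 : 1 ≤ Ab ^ L0 := one_le_pow₀ hAb1
    have h2 : 1 ≤ Real.exp (DD K * T) := Real.one_le_exp (by positivity)
    nlinarith
  intro n hn
  refine LI_mono K _ _ ?_ (LI_all K n hn)
  have h1 : ∀ l ∈ n.primeFactors, Bl K l ≤ (if l < L0 then Ab else 1) * Real.exp (DD K * (1 / (l : ℝ) ^ 2)) := by
    intro l hl
    have hlp := Nat.prime_of_mem_primeFactors hl
    have hexp : 1 + DD K / (l : ℝ) ^ 2 ≤ Real.exp (DD K * (1 / (l : ℝ) ^ 2)) := by
      have := Real.add_one_le_exp (DD K * (1 / (l : ℝ) ^ 2))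
      rw [mul_one_div] at this ⊢
      linarith
    have hexp1 : 1 ≤ Real.exp (DD K * (1 / (l : ℝ) ^ 2)) := Real.one_le_exp (by positivity)
    unfold Bl
    split_ifs with h h' h'
    · nlinarith
    · linarith
    · nlinarith
    · exfalso
      apply h
      constructor
      · omega
      · have h3 : (⌈2 * DD K⌉₊ : ℝ) ≤ l := by exact_mod_cast (by omega : ⌈2 * DD K⌉₊ ≤ l)
        exact (Nat.le_ceil _).trans h3
  refine (prod_le_prod (fun l _ => zero_le_one.trans (Bl_one K l)) h1).trans ?_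
  rw [prod_mul_distrib]
  apply mul_le_mul
  · rw [← prod_filter, prod_const]
    apply pow_le_pow_right₀ hAb1
    calc #(n.primeFactors.filter (fun l => l < L0)) ≤ #(range L0) := by
          apply card_le_card
          intro l hl
          rw [mem_filter] at hl
          exact mem_range.2 hl.2
      _ = L0 := card_range _
  · rw [← Real.exp_sum, ← mul_sum]
    apply Real.exp_le_exp.2
    apply mul_le_mul_of_nonneg_left _ hD.le
    exact hsumm.sum_le_tsum _ (fun _ _ => by positivity)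
  · exact prod_nonneg fun _ _ => (Real.exp_pos _).le
  · positivity

/-- both signs -/
theorem LI_sign {n : ℕ} [NeZero n] {K : ℕ} {A : ℝ} (h : LI K n A) (e : ℤ) (he : e = 1 ∨ e = -1) (Φ : ZMod n → ℝ)
    (h0 : ∀ s, 0 ≤ Φ s) (hu : ∀ s, ¬ IsUnit s → Φ s = 0) :
    E (fun t => ((∑ c, Φ (t + (e : ZMod n) * c ^ 2)) / (n.totient : ℝ)) ^ (2 * (K + 1))) ≤ A * ((∑ s, Φ s ^ 2) / (n.totient : ℝ)) ^ (K + 1) := by
  rcases he with rfl | rfl
  · have := h Φ h0 hu
    simpa using this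
  · have h1 := h (fun s => Φ (-s)) (fun s => h0 _) (fun s hs => hu _ (by rwa [IsUnit.neg_iff]))
    have e1 : ∑ s, (fun s => Φ (-s)) s ^ 2 = ∑ s, Φ s ^ 2 := Equiv.sum_comp (Equiv.neg (ZMod n)) (fun s => Φ s ^ 2)
    rw [e1] at h1
    refine le_trans (le_of_eq ?_) h1
    unfold E
    congr 1
    rw [← Equiv.sum_comp (Equiv.neg (ZMod n))]
    apply sum_congr rfl
    intro t _
    simp only [Equiv.neg_apply]
    congr 2
    apply sum_congr rfl
    intro c _
    congr 1
    push_cast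
    ring

end Pool.Agent.W5h22.RB
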