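import Mathlib
import Pool.Agent.W5h22.PV.C
import Pool.Agent.Helper602.MK.J3
import Pool.Agent.W5h22.RB.L4

set_option autoImplicit false

/-! The averages along the shifts by multiples of `W`. -/

namespace Pool.Agent.W5h22.RB
open Finset
open Pool.Agent.Helper602.MK
open Pool.Agent.H373R2.NB
open Pool.Agent.W5h22.PV

/-- the mean of the weight over `m + W, ..., m + J W` -/
noncomputable def u (f : ℕ → ℝ) (kk W J : ℕ) (m : ℤ) : ℝ := (1 / (J : ℝ)) * ∑ j ∈ Icc 1 J, pk f kk (m + (j * W : ℕ))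

lemma pk_nonneg (f : ℕ → ℝ) (hf0 : ∀ p, 0 ≤ f p) (kk : ℕ) (v : ℤ) : 0 ≤ pk f kk v := by
  unfold pk; split_ifs
  · exact hf0 _
  · exact le_rfl

lemma pk_le (f : ℕ → ℝ) (_ : ∀ p, 0 ≤ f p) (hf : ∀ p, f p ≤ 1) (kk : ℕ) (v : ℤ) :
    pk f kk v ≤ if v.toNat.Prime then 1 else 0 := by
  unfold pk
  split_ifs with h1 h2 h2
  · exact hf _
  · exact absurd ((mem_PP _ _).1 h1).2.1 h2
  · exact zero_le_one
  · exact le_rfl

lemma u_nonneg (f : ℕ → ℝ) (hf0 : ∀ p, 0 ≤ f p) (kk W J : ℕ) (m : ℤ) : 0 ≤ u f kk W J m := by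
  unfold u
  exact mul_nonneg (by positivity) (sum_nonneg fun j _ => pk_nonneg f hf0 kk _)

lemma u_shift (f : ℕ → ℝ) (hf0 : ∀ p, 0 ≤ f p) (kk W J : ℕ) (hJ : 1 ≤ J) (m : ℤ) (h : ℕ) (hh : h ≤ J) :
    u f kk W J (m + (h * W : ℕ)) ≤ 2 * u f kk W (2 * J) m := by
  unfold u
  have hJ0 : (0 : ℝ) < J := by exact_mod_cast hJ
  have h1 : ∑ j ∈ Icc 1 J, pk f kk (m + (h * W : ℕ) + (j * W : ℕ)) = ∑ i ∈ (Icc 1 J).image (fun j => j + h), pk f kk (m + (i * W : ℕ)) := by
    rw [sum_image (by intro a _ b _ hab; simpa using hab)]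
    apply sum_congr rfl
    intro j _
    congr 1
    push_cast
    ring
  have h2 : ∑ i ∈ (Icc 1 J).image (fun j => j + h), pk f kk (m + (i * W : ℕ)) ≤ ∑ i ∈ Icc 1 (2 * J), pk f kk (m + (i * W : ℕ)) := by
    apply sum_le_sum_of_subset_of_nonneg
    · intro i hi
      rw [mem_image] at hi
      obtain ⟨j, hj, rfl⟩ := hi
      rw [mem_Icc] at hj ⊢
      omega
    · intro i _ _
      exact pk_nonneg f hf0 kk _
  rw [h1]
  calc (1 / (J : ℝ)) * ∑ i ∈ (Icc 1 J).image (fun j => j + h), pk f kk (m + (i * W : ℕ)) ≤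
      (1 / (J : ℝ)) * ∑ i ∈ Icc 1 (2 * J), pk f kk (m + (i * W : ℕ)) := mul_le_mul_of_nonneg_left h2 (by positivity)
    _ = _ := by
        push_cast
        field_simp

lemma sum_pk_le (f : ℕ → ℝ) (hf0 : ∀ p, 0 ≤ f p) (kk : ℕ) (F : Finset ℤ) (w : ℤ) :
    ∑ m ∈ F, pk f kk (m + w) ≤ ∑ p ∈ PP kk, f p := by
  unfold pk
  rw [← sum_filter]
  have h1 : ∑ m ∈ F.filter (fun m => (m + w).toNat ∈ PP kk), f ((m + w).toNat) =
      ∑ p ∈ (F.filter (fun m => (m + w).toNat ∈ PP kk)).image (fun m => (m + w).toNat), f p := by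
    rw [sum_image]
    intro a ha b hb hab
    rw [mem_coe, mem_filter] at ha hb
    have ha' := ((mem_PP _ _).1 ha.2).2.1.pos
    have hb' := ((mem_PP _ _).1 hb.2).2.1.pos
    simp only at hab
    omega
  rw [h1]
  apply sum_le_sum_of_subset_of_nonneg
  · intro p hp
    rw [mem_image] at hp
    obtain ⟨m, hm, rfl⟩ := hp
    exact (mem_filter.1 hm).2
  · intro p _ _
    exact hf0 p

lemma sum_u_le (f : ℕ → ℝ) (hf0 : ∀ p, 0 ≤ f p) (kk W J : ℕ) (hJ : 1 ≤ J) (F : Finset ℤ) :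
    ∑ m ∈ F, u f kk W J m ≤ ∑ p ∈ PP kk, f p := by
  unfold u
  have hJ0 : (0 : ℝ) < J := by exact_mod_cast hJ
  rw [← mul_sum, sum_comm]
  calc (1 / (J : ℝ)) * ∑ j ∈ Icc 1 J, ∑ m ∈ F, pk f kk (m + (j * W : ℕ)) ≤ (1 / (J : ℝ)) * ∑ _j ∈ Icc 1 J, ∑ p ∈ PP kk, f p := by
        apply mul_le_mul_of_nonneg_left _ (by positivity)
        exact sum_le_sum fun j _ => sum_pk_le f hf0 kk F _
    _ = _ := by
        rw [sum_const, Nat.card_Icc, Nat.add_sub_cancel, nsmul_eq_mul]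
        field_simp

/-- the upper bound from the sieve -/
lemma u_sup : ∃ C : ℝ, 1 ≤ C ∧ ∀ f : ℕ → ℝ, (∀ p, 0 ≤ f p) → (∀ p, f p ≤ 1) → ∀ kk W J : ℕ, 1 ≤ W → 2 ≤ J → ∀ m : ℤ,
    u f kk W J m ≤ C * ((W : ℝ) / W.totient) / Real.log J := by
  obtain ⟨C, hC, hJ3⟩ := N_J3.J3
  refine ⟨C, hC, ?_⟩
  intro f hf0 hf kk W J hW hJ m
  have hJ0 : (0 : ℝ) < J := by exact_mod_cast (by omega : 0 < J)
  have hlJ : 0 < Real.log J := Real.log_pos (by exact_mod_cast (by omega : 1 < J))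
  have hφ : (0 : ℝ) < W.totient := by exact_mod_cast Nat.totient_pos.2 hW
  have hW0 : (0 : ℝ) < W := by exact_mod_cast hW
  set S := (Icc 1 J).filter (fun j => (m + (j * W : ℕ)).toNat.Prime) with hS
  have h1 : ∑ j ∈ Icc 1 J, pk f kk (m + (j * W : ℕ)) ≤ #S := by
    calc ∑ j ∈ Icc 1 J, pk f kk (m + (j * W : ℕ)) ≤ ∑ j ∈ Icc 1 J, if (m + (j * W : ℕ)).toNat.Prime then (1 : ℝ) else 0 :=
          sum_le_sum fun j _ => pk_le f hf0 hf kk _
      _ = #S := by rw [← sum_filter, sum_const, nsmul_eq_mul, mul_one]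
  have h2 : (#S : ℝ) ≤ C * ((W : ℝ) / W.totient) * J / Real.log J := by
    rcases S.eq_empty_or_nonempty with h | h
    · rw [h]
      simp only [card_empty, Nat.cast_zero]
      positivity
    · obtain ⟨i, hi, hmin⟩ := S.exists_min_image (fun j => j) h
      have hi' := hi
      rw [hS, mem_filter, mem_Icc] at hi
      have hip := hi.2.pos
      refine le_trans ?_ (hJ3 (m + (i * W : ℕ)).toNat W J hW hJ)
      have h3 : #S ≤ #((range J).filter (fun t => ((m + (i * W : ℕ)).toNat + t * W).Prime)) := by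
        apply card_le_card_of_injOn (fun j => j - i)
        · intro j hj
          rw [mem_coe] at hj
          have hij := hmin j hj
          rw [hS, mem_filter, mem_Icc] at hj
          rw [mem_coe, mem_filter, mem_range]
          dsimp only
          refine ⟨by omega, ?_⟩
          have e1 : (m + (i * W : ℕ)).toNat + (j - i) * W = (m + (j * W : ℕ)).toNat := by
            have e2 : j * W = i * W + (j - i) * W := by rw [← add_mul]; congr 1; omega
            rw [e2]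
            omega
          rw [e1]
          exact hj.2
        · intro j hj j' hj' hjj
          rw [mem_coe] at hj hj'
          have a1 := hmin j hj
          have a2 := hmin j' hj'
          simp only at hjj
          omega
      exact_mod_cast h3
  unfold u
  calc (1 / (J : ℝ)) * ∑ j ∈ Icc 1 J, pk f kk (m + (j * W : ℕ)) ≤ (1 / (J : ℝ)) * (C * ((W : ℝ) / W.totient) * J / Real.log J) :=
        mul_le_mul_of_nonneg_left (h1.trans h2) (by positivity)
    _ = _ := by field_simp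

/-- no primes above `√kk` in the non-reduced residue classes -/
lemma u_nonunit (f : ℕ → ℝ) (kk W J : ℕ) [NeZero W] (hWk : W ^ 2 ≤ kk) (y : ℤ) (σ : ZMod W) (hσ : ¬ IsUnit σ) :
    u f kk W J (W * y + (σ.val : ℤ)) = 0 := by
  unfold u
  rw [sum_eq_zero, mul_zero]
  intro j _
  unfold pk
  rw [if_neg]
  intro hp
  rw [mem_PP] at hp
  obtain ⟨_, hp1, hp2⟩ := hp
  apply hσ
  have h1 : ¬ Nat.Coprime σ.val W ∨ Nat.Coprime σ.val W := by tauto
  rcases h1 with h1 | h1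
  · exfalso
    obtain ⟨q, hq, hq1, hq2⟩ := Nat.Prime.not_coprime_iff_dvd.1 h1
    set v := ((W : ℤ) * y + σ.val + (j * W : ℕ)) with hv
    have hpos := hp1.pos
    have hd : (q : ℤ) ∣ v := by
      rw [hv]
      have hqW : (q : ℤ) ∣ W := by exact_mod_cast hq2
      have hqs : (q : ℤ) ∣ (σ.val : ℤ) := by exact_mod_cast hq1
      push_cast
      exact dvd_add (dvd_add (Dvd.dvd.mul_right hqW _) hqs) (Dvd.dvd.mul_left hqW _)
    have hd2 : q ∣ v.toNat := by
      have h3 : ((v.toNat : ℕ) : ℤ) = v := Int.toNat_of_nonneg (by omega)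
      rw [← h3] at hd
      exact_mod_cast hd
    have hqv : q = v.toNat := (Nat.prime_dvd_prime_iff_eq hq hp1).1 hd2
    have hqW : q ≤ W := Nat.le_of_dvd (Nat.pos_of_ne_zero (NeZero.ne W)) hq2
    rw [← hqv] at hp2
    have : q ^ 2 ≤ W ^ 2 := Nat.pow_le_pow_left hqW 2
    omega
  · have h2 := (ZMod.isUnit_iff_coprime σ.val W).2 h1
    rwa [ZMod.natCast_zmod_val] at h2

end Pool.Agent.W5h22.RB
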