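import Mathlib
import Pool.Agent.W5h22.RB.M1

set_option autoImplicit false

/-! Values of `± (a + n²)` and the residue classes. -/

namespace Pool.Agent.W5h22.RB
open Finset
open Pool.Agent.Helper602.MK
open Pool.Agent.H373R2.NB
open Pool.Agent.W5h22.PV

/-- the sum of the averages over the values -/
noncomputable def TT (f : ℕ → ℝ) (kk W J x : ℕ) (e a : ℤ) : ℝ := ∑ n ∈ Icc 1 x, u f kk W J (e * (a + (n : ℤ) ^ 2))

/-- the base point -/
def bs (W : ℕ) (e : ℤ) (k : ℕ) : ℤ := if e = 1 then W * (k : ℤ) ^ 2 else - (W * ((k : ℤ) + 1) ^ 2)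

/-- the averages as a function of the residue class -/
noncomputable def Ph (f : ℕ → ℝ) (kk W J : ℕ) (y : ℤ) (σ : ZMod W) : ℝ := u f kk W J (W * y + (σ.val : ℤ))

lemma shift_rep (W J x : ℕ) [NeZero W] (hJ : 2 * x + W ≤ J) (e : ℤ) (he : e = 1 ∨ e = -1) (b : ℤ) (s n : ℕ) (hs : s < W) (hn : n ≤ x) :
    ∃ h : ℕ, h ≤ J ∧ e * (e * (W * b + s) + (n : ℤ) ^ 2) =
      (W * (b + bs W e (n / W)) + ((((s : ℕ) : ZMod W) + (e : ZMod W) * ((n : ℕ) : ZMod W) ^ 2).val : ℤ)) + (h * W : ℕ) := by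
  have hW : 0 < W := Nat.pos_of_ne_zero (NeZero.ne W)
  set σ : ZMod W := ((s : ℕ) : ZMod W) + (e : ZMod W) * ((n : ℕ) : ZMod W) ^ 2 with hσ
  set k : ℕ := n / W with hk
  set c : ℕ := n % W with hc
  have hnk : (n : ℤ) = W * k + c := by
    have := Nat.div_add_mod n W
    rw [← hk, ← hc] at this
    exact_mod_cast this.symm
  have hcW : (c : ℤ) < W := by exact_mod_cast Nat.mod_lt n hW
  have hc0 : (0 : ℤ) ≤ c := Int.natCast_nonneg c
  have hk0 : (0 : ℤ) ≤ k := Int.natCast_nonneg k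
  have hσv : (σ.val : ℤ) < W := by exact_mod_cast ZMod.val_lt σ
  have hσ0 : (0 : ℤ) ≤ σ.val := Int.natCast_nonneg _
  have hWz : (0 : ℤ) < W := by exact_mod_cast hW
  have hsz : (s : ℤ) < W := by exact_mod_cast hs
  have hs0 : (0 : ℤ) ≤ s := Int.natCast_nonneg s
  have hkx : (W : ℤ) * k ≤ x := by
    have : (n : ℤ) ≤ x := by exact_mod_cast hn
    omega
  have hd : (W : ℤ) ∣ e * (e * (W * b + s) + (n : ℤ) ^ 2) - (W * (b + bs W e k) + (σ.val : ℤ)) := by
    rw [← ZMod.intCast_zmod_eq_zero_iff_dvd]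
    push_cast
    rw [ZMod.natCast_zmod_val, ZMod.natCast_self, hσ]
    have he2 : ((e : ZMod W)) * e = 1 := by
      rcases he with rfl | rfl <;> simp
    linear_combination ((s : ZMod W)) * he2
  obtain ⟨h, hh⟩ := hd
  have key : 0 ≤ h ∧ h ≤ 2 * (W * k) + W := by
    rcases he with rfl | rfl
    · have hb : bs W 1 k = W * (k : ℤ) ^ 2 := by unfold bs; simp
      rw [hb, hnk] at hh
      have e1 : (W : ℤ) * h = s + 2 * W * k * c + c ^ 2 - σ.val := by rw [← hh]; ring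
      constructor
      · by_contra hcon
        push Not at hcon
        have : (W : ℤ) * h ≤ W * (-1) := mul_le_mul_of_nonneg_left (by omega) hWz.le
        nlinarith [mul_nonneg (mul_nonneg hWz.le hk0) hc0]
      · by_contra hcon
        push Not at hcon
        have h1 : (W : ℤ) * (2 * (W * k) + W + 1) ≤ W * h := mul_le_mul_of_nonneg_left (by omega) hWz.le
        have h2 : (W : ℤ) * k * c ≤ W * k * W := mul_le_mul_of_nonneg_left hcW.le (mul_nonneg hWz.le hk0)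
        have h3 : (c : ℤ) ^ 2 ≤ W ^ 2 := by nlinarith
        nlinarith
    · have hb : bs W (-1) k = -(W * ((k : ℤ) + 1) ^ 2) := by unfold bs; simp
      rw [hb, hnk] at hh
      have e1 : (W : ℤ) * h = s + 2 * W * k * (W - c) + (W ^ 2 - c ^ 2) - σ.val := by rw [← hh]; ring
      have hwc : 0 ≤ (W : ℤ) * k * (W - c) := mul_nonneg (mul_nonneg hWz.le hk0) (by omega)
      have hwc2 : 0 ≤ (W : ℤ) ^ 2 - c ^ 2 := by nlinarith
      constructor
      · by_contra hcon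
        push Not at hcon
        have : (W : ℤ) * h ≤ W * (-1) := mul_le_mul_of_nonneg_left (by omega) hWz.le
        nlinarith
      · by_contra hcon
        push Not at hcon
        have h1 : (W : ℤ) * (2 * (W * k) + W + 1) ≤ W * h := mul_le_mul_of_nonneg_left (by omega) hWz.le
        have h2 : (W : ℤ) * k * (W - c) ≤ W * k * W := mul_le_mul_of_nonneg_left (by omega) (mul_nonneg hWz.le hk0)
        have h3 : 0 ≤ (c : ℤ) ^ 2 := sq_nonneg _
        nlinarith
  refine ⟨h.toNat, by omega, ?_⟩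
  have : ((h.toNat * W : ℕ) : ℤ) = W * h := by
    push_cast
    rw [Int.toNat_of_nonneg key.1]; ring
  rw [this]
  linarith

lemma TT_le (f : ℕ → ℝ) (hf0 : ∀ p, 0 ≤ f p) (kk W J x : ℕ) [NeZero W] (hJ : 2 * x + W ≤ J) (e : ℤ) (he : e = 1 ∨ e = -1)
    (b : ℤ) (s : ℕ) (hs : s < W) :
    TT f kk W J x e (e * (W * b + s)) ≤ 2 * ∑ k ∈ range (x / W + 1), ∑ c : ZMod W,
      Ph f kk W (2 * J) (b + bs W e k) ((s : ZMod W) + (e : ZMod W) * c ^ 2) := by
  have hW : 0 < W := Nat.pos_of_ne_zero (NeZero.ne W)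
  unfold TT
  have h1 : ∀ n ∈ Icc 1 x, u f kk W J (e * (e * (W * b + s) + (n : ℤ) ^ 2)) ≤
      2 * Ph f kk W (2 * J) (b + bs W e (n / W)) ((s : ZMod W) + (e : ZMod W) * ((n : ℕ) : ZMod W) ^ 2) := by
    intro n hn
    rw [mem_Icc] at hn
    obtain ⟨h, hh, heq⟩ := shift_rep W J x hJ e he b s n hs hn.2
    rw [heq]
    exact u_shift f hf0 kk W J (by omega) _ h hh
  refine (sum_le_sum h1).trans ?_
  rw [← mul_sum]
  apply mul_le_mul_of_nonneg_left _ (by norm_num)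
  set Gf : ℕ × ZMod W → ℝ := fun y => Ph f kk W (2 * J) (b + bs W e y.1) ((s : ZMod W) + (e : ZMod W) * y.2 ^ 2) with hGf
  have h2 : ∑ n ∈ Icc 1 x, Ph f kk W (2 * J) (b + bs W e (n / W)) ((s : ZMod W) + (e : ZMod W) * ((n : ℕ) : ZMod W) ^ 2) =
      ∑ y ∈ (Icc 1 x).image (fun n => ((n / W, (n : ZMod W)) : ℕ × ZMod W)), Gf y := by
    rw [sum_image]
    intro a _ b _ hab
    simp only [Prod.mk.injEq] at hab
    have h3 : a % W = b % W := (ZMod.natCast_eq_natCast_iff' a b W).1 hab.2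
    rw [← Nat.div_add_mod a W, ← Nat.div_add_mod b W, hab.1, h3]
  rw [h2]
  have h3 : ∑ k ∈ range (x / W + 1), ∑ c : ZMod W, Ph f kk W (2 * J) (b + bs W e k) ((s : ZMod W) + (e : ZMod W) * c ^ 2) =
      ∑ y ∈ range (x / W + 1) ×ˢ (univ : Finset (ZMod W)), Gf y := by
    rw [sum_product]
  rw [h3]
  apply sum_le_sum_of_subset_of_nonneg
  · intro y hy
    rw [mem_image] at hy
    obtain ⟨n, hn, rfl⟩ := hy
    rw [mem_Icc] at hn
    rw [mem_product, mem_range]
    refine ⟨?_, mem_univ _⟩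
    have := Nat.div_le_div_right (c := W) hn.2
    simp only
    omega
  · intro y _ _
    exact u_nonneg f hf0 kk W (2 * J) _

/-- the base points are far apart -/
lemma bs_gap (W : ℕ) (hW : 1 ≤ W) (e : ℤ) (k k' k₀ : ℕ) (hk : k₀ ≤ k) (hkk : k < k') :
    (W : ℤ) * (2 * k₀ + 1) ≤ |bs W e k' - bs W e k| := by
  have hWz : (0 : ℤ) < W := by exact_mod_cast hW
  have h1 : (k : ℤ) + 1 ≤ k' := by exact_mod_cast hkk
  have h2 : (k₀ : ℤ) ≤ k := by exact_mod_cast hk
  have h0 : (0 : ℤ) ≤ k₀ := Int.natCast_nonneg _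
  unfold bs
  split_ifs with he
  · have e1 : (W : ℤ) * (k' : ℤ) ^ 2 - W * (k : ℤ) ^ 2 = W * ((k' : ℤ) ^ 2 - (k : ℤ) ^ 2) := by ring
    rw [e1]
    have h3 : 2 * (k₀ : ℤ) + 1 ≤ (k' : ℤ) ^ 2 - (k : ℤ) ^ 2 := by nlinarith
    exact (mul_le_mul_of_nonneg_left h3 hWz.le).trans (le_abs_self _)
  · have e1 : -((W : ℤ) * ((k' : ℤ) + 1) ^ 2) - -(W * ((k : ℤ) + 1) ^ 2) = -(W * (((k' : ℤ) + 1) ^ 2 - ((k : ℤ) + 1) ^ 2)) := by ring
    rw [e1, abs_neg]
    have h3 : 2 * (k₀ : ℤ) + 1 ≤ ((k' : ℤ) + 1) ^ 2 - ((k : ℤ) + 1) ^ 2 := by nlinarith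
    exact (mul_le_mul_of_nonneg_left h3 hWz.le).trans (le_abs_self _)

/-- the second moments of the averages over the base points -/
lemma sum_Ph_sq (f : ℕ → ℝ) (hf0 : ∀ p, 0 ≤ f p) (kk W J K₁ k₀ : ℕ) [NeZero W] (hJ : 1 ≤ J) (hk₀ : 1 ≤ k₀) (hH : W * k₀ ≤ J)
    (g : ℝ) (hg : ∀ m : ℤ, u f kk W (2 * J) m ≤ g) (e : ℤ) (b : ℤ) :
    ((W * k₀ : ℕ) : ℝ) * ∑ k ∈ Ico k₀ K₁, ∑ σ : ZMod W, Ph f kk W J (b + bs W e k) σ ^ 2 ≤ 4 * (g * ∑ p ∈ PP kk, f p) := by
  have hW : 0 < W := Nat.pos_of_ne_zero (NeZero.ne W)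
  set H := W * k₀ with hHd
  have hH0 : 1 ≤ H := Nat.mul_pos hW hk₀
  set ψ : ℕ × ZMod W × ℕ → ℤ := fun z => W * (b + bs W e z.1 - z.2.2) + (z.2.1.val : ℤ) with hψ
  set D := Ico k₀ K₁ ×ˢ (univ : Finset (ZMod W)) ×ˢ range H with hD
  have hpt : ∀ k : ℕ, ∀ σ : ZMod W, ∀ h ∈ range H, Ph f kk W J (b + bs W e k) σ ^ 2 ≤ 4 * u f kk W (2 * J) (ψ (k, σ, h)) ^ 2 := by
    intro k σ h hh
    rw [mem_range] at hh
    have h1 : Ph f kk W J (b + bs W e k) σ ≤ 2 * u f kk W (2 * J) (ψ (k, σ, h)) := by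
      unfold Ph
      have h2 : (W : ℤ) * (b + bs W e k) + (σ.val : ℤ) = ψ (k, σ, h) + (h * W : ℕ) := by
        simp only [hψ]
        push_cast
        ring
      rw [h2]
      exact u_shift f hf0 kk W J hJ _ h (by omega)
    have h3 : 0 ≤ Ph f kk W J (b + bs W e k) σ := u_nonneg f hf0 kk W J _
    nlinarith
  have hinj : Set.InjOn ψ (D : Set (ℕ × ZMod W × ℕ)) := by
    intro z hz z' hz' hzz
    obtain ⟨k, σ, h⟩ := z
    obtain ⟨k', σ', h'⟩ := z'
    rw [mem_coe, hD, mem_product, mem_product, mem_Ico, mem_range] at hz hz'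
    simp only at hz hz'
    simp only [hψ] at hzz
    have h1 : σ = σ' := by
      have h2 := congrArg (fun t : ℤ => (t : ZMod W)) hzz
      push_cast at h2
      rw [ZMod.natCast_self, zero_mul, zero_mul, zero_add, zero_add, ZMod.natCast_zmod_val, ZMod.natCast_zmod_val] at h2
      exact h2
    subst h1
    have hWz : (0 : ℤ) < W := by exact_mod_cast hW
    have h2 : b + bs W e k - h = b + bs W e k' - h' := by
      have h3 : (W : ℤ) * (b + bs W e k - h) = W * (b + bs W e k' - h') := by linarith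
      exact mul_left_cancel₀ hWz.ne' h3
    have hkk : k = k' := by
      rcases lt_trichotomy k k' with h3 | h3 | h3
      · exfalso
        have h4 := bs_gap W hW e k k' k₀ hz.1.1 h3
        have h5 : bs W e k' - bs W e k = (h' : ℤ) - h := by linarith
        rw [h5] at h4
        have h6 : |(h' : ℤ) - h| < H := by rw [abs_lt]; constructor <;> omega
        have h7 : (H : ℤ) = W * k₀ := by rw [hHd]; push_cast; ring
        rw [h7] at h6
        nlinarith
      · exact h3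
      · exfalso
        have h4 := bs_gap W hW e k' k k₀ hz'.1.1 h3
        have h5 : bs W e k - bs W e k' = (h : ℤ) - h' := by linarith
        rw [h5] at h4
        have h6 : |(h : ℤ) - h'| < H := by rw [abs_lt]; constructor <;> omega
        have h7 : (H : ℤ) = W * k₀ := by rw [hHd]; push_cast; ring
        rw [h7] at h6
        nlinarith
    subst hkk
    have : h = h' := by omega
    rw [this]
  have hS : ∑ z ∈ D, u f kk W (2 * J) (ψ z) ^ 2 ≤ g * ∑ p ∈ PP kk, f p := by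
    have h1 : ∑ z ∈ D, u f kk W (2 * J) (ψ z) ^ 2 ≤ ∑ z ∈ D, g * u f kk W (2 * J) (ψ z) := by
      apply sum_le_sum
      intro z _
      rw [sq]
      exact mul_le_mul_of_nonneg_right (hg _) (u_nonneg f hf0 kk W (2 * J) _)
    refine h1.trans ?_
    rw [← mul_sum]
    have hg0 : 0 ≤ g := (u_nonneg f hf0 kk W (2 * J) 0).trans (hg 0)
    apply mul_le_mul_of_nonneg_left _ hg0
    have h2 : ∑ z ∈ D, u f kk W (2 * J) (ψ z) = ∑ m ∈ D.image ψ, u f kk W (2 * J) m :=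
      (sum_image (f := fun m => u f kk W (2 * J) m) (fun a ha b hb h => hinj ha hb h)).symm
    rw [h2]
    exact sum_u_le f hf0 kk W (2 * J) (by omega) _
  calc ((H : ℕ) : ℝ) * ∑ k ∈ Ico k₀ K₁, ∑ σ : ZMod W, Ph f kk W J (b + bs W e k) σ ^ 2
      = ∑ z ∈ D, Ph f kk W J (b + bs W e z.1) z.2.1 ^ 2 := by
        rw [hD, sum_product, mul_sum]
        apply sum_congr rfl
        intro k _
        rw [sum_product, mul_sum]
        apply sum_congr rfl
        intro σ _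
        dsimp only
        rw [sum_const, card_range, nsmul_eq_mul]
    _ ≤ ∑ z ∈ D, 4 * u f kk W (2 * J) (ψ z) ^ 2 := by
        apply sum_le_sum
        intro z hz
        rw [hD, mem_product, mem_product] at hz
        exact hpt z.1 z.2.1 z.2.2 hz.2.2
    _ = 4 * ∑ z ∈ D, u f kk W (2 * J) (ψ z) ^ 2 := by rw [mul_sum]
    _ ≤ _ := mul_le_mul_of_nonneg_left hS (by norm_num)

end Pool.Agent.W5h22.RB
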