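import Mathlib
import Pool.Agent.W5h22.RB.M2

set_option autoImplicit false

/-! High moments of the sums of the averages. -/

namespace Pool.Agent.W5h22.RB
open Finset
open Pool.Agent.Helper602.MK
open Pool.Agent.H373R2.NB
open Pool.Agent.W5h22.PV

theorem model : ∃ C : ℝ, 1 ≤ C ∧ ∀ K : ℕ, ∃ A : ℝ, 1 ≤ A ∧
    ∀ f : ℕ → ℝ, (∀ p, 0 ≤ f p) → (∀ p, f p ≤ 1) → ∀ kk W J x k₀ : ℕ, ∀ hW : NeZero W, W ^ 2 ≤ kk → 2 * x + W ≤ J → 2 ≤ J →
    1 ≤ k₀ → W * k₀ ≤ J → ∀ e : ℤ, (e = 1 ∨ e = -1) → ∀ b : ℤ,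
    E (fun t : ZMod W => TT f kk W J x e (e * (W * b + (t.val : ℤ))) ^ (2 * (K + 1))) ≤
      16 ^ (K + 1) * A * ((k₀ * C * W / Real.log J) ^ (2 * (K + 1)) +
        (4 * C * (((x / W + 1 : ℕ) : ℝ) / k₀) * (∑ p ∈ PP kk, f p) / Real.log J) ^ (K + 1)) := by
  classical
  obtain ⟨C, hC, hsup⟩ := u_sup
  refine ⟨C, hC, ?_⟩
  intro K
  obtain ⟨A, hA, hLI⟩ := local_ineq K
  refine ⟨A, hA, ?_⟩
  intro f hf0 hf kk W J x k₀ hW hWk hJx hJ2 hk₀ hHJ e he b
  have hWp : 0 < W := Nat.pos_of_ne_zero (NeZero.ne W)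
  have hW0 : (0 : ℝ) < W := by exact_mod_cast hWp
  have hφ : (0 : ℝ) < W.totient := tot_pos W
  have hlJ : 0 < Real.log J := Real.log_pos (by exact_mod_cast (by omega : 1 < J))
  have hk0 : (0 : ℝ) < k₀ := by exact_mod_cast hk₀
  set m := K + 1 with hm
  set K₁ := x / W + 1 with hK₁
  set S := ∑ p ∈ PP kk, f p with hS
  have hS0 : 0 ≤ S := sum_nonneg fun p _ => hf0 p
  set g : ℝ := C * ((W : ℝ) / W.totient) / Real.log J with hg
  have hg0 : 0 ≤ g := by positivity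
  have hgu : ∀ c : ℕ, 1 ≤ c → ∀ v : ℤ, u f kk W (c * J) v ≤ g := by
    intro c hc v
    refine (hsup f hf0 hf kk W (c * J) hWp (by nlinarith) v).trans ?_
    rw [hg]
    apply div_le_div_of_nonneg_left (by positivity) hlJ
    apply Real.log_le_log (by exact_mod_cast (by omega : 0 < J))
    have : J ≤ c * J := Nat.le_mul_of_pos_left J hc
    exact_mod_cast this
  have hPg : ∀ y : ℤ, ∀ σ : ZMod W, Ph f kk W (2 * J) y σ ≤ g * (if IsUnit σ then 1 else 0) := by
    intro y σ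
    split_ifs with h
    · rw [mul_one]; exact hgu 2 (by norm_num) _
    · rw [mul_zero]
      exact (u_nonunit f kk W (2 * J) hWk y σ h).le
  have hP0 : ∀ y : ℤ, ∀ σ : ZMod W, 0 ≤ Ph f kk W (2 * J) y σ := fun y σ => u_nonneg f hf0 kk W (2 * J) _
  set U : ZMod W → ℝ := fun σ => if IsUnit σ then 1 else 0 with hU
  set G : ZMod W → ℝ := fun σ => ∑ k ∈ Ico k₀ K₁, Ph f kk W (2 * J) (b + bs W e k) σ with hG
  have hG0 : ∀ σ, 0 ≤ G σ := fun σ => sum_nonneg fun k _ => hP0 _ _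
  set As : ZMod W → ℝ := fun t => (k₀ * g * W.totient) * ((∑ c, U (t + (e : ZMod W) * c ^ 2)) / W.totient) with hAs
  set Bs : ZMod W → ℝ := fun t => W.totient * ((∑ c, G (t + (e : ZMod W) * c ^ 2)) / W.totient) with hBs
  have hU0 : ∀ σ, 0 ≤ U σ := by intro σ; simp only [hU]; split_ifs <;> norm_num
  have hAs0 : ∀ t, 0 ≤ As t := fun t => by
    simp only [hAs]
    exact mul_nonneg (by positivity) (div_nonneg (sum_nonneg fun c _ => hU0 _) hφ.le)
  have hBs0 : ∀ t, 0 ≤ Bs t := fun t => by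
    simp only [hBs]
    exact mul_nonneg hφ.le (div_nonneg (sum_nonneg fun c _ => hG0 _) hφ.le)
  have hTT : ∀ t : ZMod W, TT f kk W J x e (e * (W * b + (t.val : ℤ))) ≤ 2 * (As t + Bs t) := by
    intro t
    have h1 := TT_le f hf0 kk W J x hJx e he b t.val (ZMod.val_lt t)
    rw [ZMod.natCast_zmod_val] at h1
    refine h1.trans (mul_le_mul_of_nonneg_left ?_ (by norm_num))
    have hAe : As t = ∑ _k ∈ range k₀, ∑ c : ZMod W, g * U (t + (e : ZMod W) * c ^ 2) := by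
      simp only [hAs]
      rw [sum_const, card_range, nsmul_eq_mul, ← mul_sum]
      field_simp
    have hBe : Bs t = ∑ k ∈ Ico k₀ K₁, ∑ c : ZMod W, Ph f kk W (2 * J) (b + bs W e k) (t + (e : ZMod W) * c ^ 2) := by
      simp only [hBs, hG]
      rw [mul_div_cancel₀ _ hφ.ne', sum_comm]
    rw [hAe, hBe]
    set X : ℕ → ℝ := fun k => ∑ c : ZMod W, Ph f kk W (2 * J) (b + bs W e k) (t + (e : ZMod W) * c ^ 2) with hX
    have hX0 : ∀ k, 0 ≤ X k := fun k => sum_nonneg fun c _ => hP0 _ _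
    have h2 : ∑ k ∈ range K₁, X k ≤ ∑ k ∈ range k₀, X k + ∑ k ∈ Ico k₀ K₁, X k := by
      have h3 : range K₁ ⊆ range k₀ ∪ Ico k₀ K₁ := by
        intro k hk
        rw [mem_range] at hk
        rw [mem_union, mem_range, mem_Ico]
        omega
      refine (sum_le_sum_of_subset_of_nonneg h3 (fun k _ _ => hX0 k)).trans ?_
      rw [sum_union]
      rw [disjoint_left]
      intro k hk hk2
      rw [mem_range] at hk
      rw [mem_Ico] at hk2
      omega
    refine h2.trans (add_le_add ?_ le_rfl)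
    apply sum_le_sum
    intro k _
    simp only [hX]
    apply sum_le_sum
    intro c _
    exact hPg _ _
  have hTT0 : ∀ t : ZMod W, 0 ≤ TT f kk W J x e (e * (W * b + (t.val : ℤ))) := fun t => sum_nonneg fun n _ => u_nonneg f hf0 kk W J _
  have hpt : ∀ t : ZMod W, TT f kk W J x e (e * (W * b + (t.val : ℤ))) ^ (2 * m) ≤ 16 ^ m * (As t ^ (2 * m) + Bs t ^ (2 * m)) := by
    intro t
    calc TT f kk W J x e (e * (W * b + (t.val : ℤ))) ^ (2 * m) ≤ (2 * (As t + Bs t)) ^ (2 * m) := pow_le_pow_left₀ (hTT0 t) (hTT t) _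
      _ = 2 ^ (2 * m) * (As t + Bs t) ^ (2 * m) := mul_pow _ _ _
      _ ≤ 2 ^ (2 * m) * (2 ^ (2 * m - 1) * (As t ^ (2 * m) + Bs t ^ (2 * m))) :=
          mul_le_mul_of_nonneg_left (add_pow_le (hAs0 t) (hBs0 t) _) (by positivity)
      _ ≤ 2 ^ (2 * m) * (2 ^ (2 * m) * (As t ^ (2 * m) + Bs t ^ (2 * m))) := by
          have h1 := hAs0 t
          have h2 := hBs0 t
          apply mul_le_mul_of_nonneg_left _ (by positivity)
          apply mul_le_mul_of_nonneg_right _ (by positivity)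
          exact pow_le_pow_right₀ (by norm_num) (by omega)
      _ = _ := by
          rw [← mul_assoc, ← mul_pow, pow_mul]
          norm_num
  refine (E_mono _ _ hpt).trans ?_
  rw [E_mul, E_add]
  have hsumU : (∑ s, U s ^ 2) / (W.totient : ℝ) ≤ 1 := by
    rw [div_le_one hφ]
    have h1 : ∑ s, U s ^ 2 = #(univ.filter (fun s : ZMod W => IsUnit s)) := by
      have h2 : ∀ s, U s ^ 2 = if IsUnit s then 1 else 0 := by
        intro s; simp only [hU]; split_ifs <;> norm_num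
      simp_rw [h2]
      rw [← sum_filter, sum_const, nsmul_eq_mul, mul_one]
    rw [h1]
    exact_mod_cast card_unit_le W _ (fun s hs => (mem_filter.1 hs).2)
  have hEA : E (fun t => As t ^ (2 * m)) ≤ A * (k₀ * C * W / Real.log J) ^ (2 * m) := by
    have h1 := LI_sign (hLI W hW) e he U hU0 (fun s hs => by simp only [hU]; rw [if_neg hs])
    simp only [hAs, mul_pow]
    rw [E_mul]
    have h2 : (k₀ : ℝ) * g * W.totient = k₀ * C * W / Real.log J := by
      rw [hg]; field_simp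
    rw [← mul_pow, ← mul_pow, h2, mul_comm]
    apply mul_le_mul_of_nonneg_right _ (by positivity)
    refine h1.trans ?_
    have h3 : 0 ≤ (∑ s, U s ^ 2) / (W.totient : ℝ) := div_nonneg (sum_nonneg fun _ _ => sq_nonneg _) hφ.le
    calc A * ((∑ s, U s ^ 2) / (W.totient : ℝ)) ^ m ≤ A * 1 := by
          apply mul_le_mul_of_nonneg_left _ (by linarith)
          exact pow_le_one₀ h3 hsumU
      _ = A := mul_one _
  have hEB : E (fun t => Bs t ^ (2 * m)) ≤ A * (4 * C * ((K₁ : ℝ) / k₀) * S / Real.log J) ^ m := by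
    have h1 := LI_sign (hLI W hW) e he G hG0 (fun s hs => by
      simp only [hG]
      apply sum_eq_zero
      intro k _
      exact u_nonunit f kk W (2 * J) hWk _ s hs)
    simp only [hBs, mul_pow]
    rw [E_mul]
    have h2 : ∑ s, G s ^ 2 ≤ K₁ * (4 * (g * S)) / (W * k₀) := by
      have h3 : ∀ s, G s ^ 2 ≤ K₁ * ∑ k ∈ Ico k₀ K₁, Ph f kk W (2 * J) (b + bs W e k) s ^ 2 := by
        intro s
        simp only [hG]
        refine sq_sum_le_card_mul_sum_sq.trans ?_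
        apply mul_le_mul_of_nonneg_right _ (sum_nonneg fun _ _ => sq_nonneg _)
        rw [Nat.card_Ico]
        exact_mod_cast Nat.sub_le _ _
      have h4 : ∑ s, G s ^ 2 ≤ K₁ * ∑ k ∈ Ico k₀ K₁, ∑ σ : ZMod W, Ph f kk W (2 * J) (b + bs W e k) σ ^ 2 := by
        refine (sum_le_sum fun s _ => h3 s).trans (le_of_eq ?_)
        rw [← mul_sum, sum_comm]
      have h5 := sum_Ph_sq f hf0 kk W (2 * J) K₁ k₀ (by omega) hk₀ (by omega) g (fun v => by
        have := hgu 4 (by norm_num) v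
        have e4 : 2 * (2 * J) = 4 * J := by ring
        rw [e4]; exact this) e b
      have hWk0 : (0 : ℝ) < W * k₀ := by positivity
      rw [le_div_iff₀ hWk0]
      calc (∑ s, G s ^ 2) * (W * k₀) ≤ (K₁ * ∑ k ∈ Ico k₀ K₁, ∑ σ : ZMod W, Ph f kk W (2 * J) (b + bs W e k) σ ^ 2) * (W * k₀) :=
            mul_le_mul_of_nonneg_right h4 hWk0.le
        _ = K₁ * (((W * k₀ : ℕ) : ℝ) * ∑ k ∈ Ico k₀ K₁, ∑ σ : ZMod W, Ph f kk W (2 * J) (b + bs W e k) σ ^ 2) := by push_cast; ring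
        _ ≤ K₁ * (4 * (g * S)) := mul_le_mul_of_nonneg_left h5 (Nat.cast_nonneg _)
    have h6 : (W.totient : ℝ) ^ 2 * ((∑ s, G s ^ 2) / W.totient) ≤ 4 * C * ((K₁ : ℝ) / k₀) * S / Real.log J := by
      calc (W.totient : ℝ) ^ 2 * ((∑ s, G s ^ 2) / W.totient) = W.totient * ∑ s, G s ^ 2 := by field_simp
        _ ≤ W.totient * (K₁ * (4 * (g * S)) / (W * k₀)) := mul_le_mul_of_nonneg_left h2 hφ.le
        _ = _ := by rw [hg]; field_simp
    have h7 : 0 ≤ (∑ s, G s ^ 2) / (W.totient : ℝ) := div_nonneg (sum_nonneg fun _ _ => sq_nonneg _) hφ.le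
    calc (W.totient : ℝ) ^ (2 * m) * E (fun t => ((∑ c, G (t + (e : ZMod W) * c ^ 2)) / W.totient) ^ (2 * m)) ≤
        (W.totient : ℝ) ^ (2 * m) * (A * ((∑ s, G s ^ 2) / (W.totient : ℝ)) ^ m) := mul_le_mul_of_nonneg_left h1 (by positivity)
      _ = A * ((W.totient : ℝ) ^ 2 * ((∑ s, G s ^ 2) / W.totient)) ^ m := by rw [pow_mul, mul_pow]; ring
      _ ≤ _ := by
          apply mul_le_mul_of_nonneg_left _ (by linarith)
          exact pow_le_pow_left₀ (by positivity) h6 _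
  calc (16 : ℝ) ^ m * (E (fun t => As t ^ (2 * m)) + E (fun t => Bs t ^ (2 * m))) ≤
      16 ^ m * (A * (k₀ * C * W / Real.log J) ^ (2 * m) + A * (4 * C * ((K₁ : ℝ) / k₀) * S / Real.log J) ^ m) :=
        mul_le_mul_of_nonneg_left (add_le_add hEA hEB) (by positivity)
    _ = _ := by ring

end Pool.Agent.W5h22.RB
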