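import Mathlib
import Pool.Agent.W5h22.RB.M3

set_option autoImplicit false

/-! High moments over `|a| ≤ N`. -/

namespace Pool.Agent.W5h22.RB
open Finset Filter Topology
open Pool.Agent.Helper602.MK
open Pool.Agent.H373R2.NB
open Pool.Agent.W5h22.PV

/-- the shifts `|a| ≤ N` in blocks of length `W` -/
lemma blocks (W N : ℕ) [NeZero W] (e : ℤ) (he : e = 1 ∨ e = -1) (F : ℤ → ℝ) (hF : ∀ a, 0 ≤ F a) :
    ∑ a ∈ Icc (-(N : ℤ)) N, F a ≤ ∑ b ∈ Icc (-((N / W : ℕ) + 1 : ℤ)) ((N / W : ℕ) : ℤ), ∑ t : ZMod W, F (e * (W * b + (t.val : ℤ))) := by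
  have hWp : 0 < W := Nat.pos_of_ne_zero (NeZero.ne W)
  have hWz : (0 : ℤ) < W := by exact_mod_cast hWp
  set Gf : ℤ × ZMod W → ℝ := fun y => F (e * (W * y.1 + (y.2.val : ℤ))) with hGf
  set ψ : ℤ → ℤ × ZMod W := fun a => ((e * a) / W, ((e * a : ℤ) : ZMod W)) with hψ
  have hee : e * e = 1 := by rcases he with rfl | rfl <;> norm_num
  have hval : ∀ a, e * (W * (ψ a).1 + ((ψ a).2.val : ℤ)) = a := by
    intro a
    simp only [hψ]
    rw [ZMod.val_intCast]
    have h1 : (W : ℤ) * ((e * a) / W) + (e * a) % W = e * a := Int.mul_ediv_add_emod _ _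
    rw [h1, ← mul_assoc, hee, one_mul]
  have hinj : Set.InjOn ψ (Icc (-(N : ℤ)) N : Finset ℤ) := by
    intro a _ b _ hab
    rw [← hval a, ← hval b, hab]
  have h1 : ∑ a ∈ Icc (-(N : ℤ)) N, F a = ∑ y ∈ (Icc (-(N : ℤ)) N).image ψ, Gf y := by
    rw [sum_image (fun a ha b hb h => hinj ha hb h)]
    apply sum_congr rfl
    intro a _
    simp only [hGf]
    rw [hval]
  have h2 : ∑ b ∈ Icc (-((N / W : ℕ) + 1 : ℤ)) ((N / W : ℕ) : ℤ), ∑ t : ZMod W, F (e * (W * b + (t.val : ℤ))) =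
      ∑ y ∈ Icc (-((N / W : ℕ) + 1 : ℤ)) ((N / W : ℕ) : ℤ) ×ˢ (univ : Finset (ZMod W)), Gf y := by
    rw [sum_product]
  rw [h1, h2]
  apply sum_le_sum_of_subset_of_nonneg
  · intro y hy
    rw [mem_image] at hy
    obtain ⟨a, ha, rfl⟩ := hy
    rw [mem_Icc] at ha
    rw [mem_product, mem_Icc]
    refine ⟨?_, mem_univ _⟩
    have h3 : -(N : ℤ) ≤ e * a ∧ e * a ≤ N := by
      rcases he with rfl | rfl <;> constructor <;> omega
    have h4 := Nat.div_add_mod N W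
    have h5 := Nat.mod_lt N hWp
    have h6 : (W : ℤ) * (N / W : ℕ) + (N % W : ℕ) = N := by exact_mod_cast h4
    have h7 : ((N % W : ℕ) : ℤ) < W := by exact_mod_cast h5
    simp only [hψ]
    constructor
    · rw [Int.le_ediv_iff_mul_le hWz]
      nlinarith [h3.1]
    · rw [← Int.lt_add_one_iff, Int.ediv_lt_iff_lt_mul hWz]
      nlinarith [h3.2]
  · intro y _ _
    exact hF _

theorem large (K : ℕ) : ∃ C : ℝ, 1 ≤ C ∧ ∀ δ : ℝ, 0 < δ → δ ≤ 1 → ∀ τ : ℝ, 0 < τ → ∀ W : ℕ, 1 ≤ W →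
    ∀ᶠ N : ℕ in atTop, ∀ f : ℕ → ℝ, (∀ p, 0 ≤ f p) → (∀ p, f p ≤ 1) → ∑ p ∈ PP (3 * N), f p ≤ δ ^ 2 * (N / Real.log N) →
      ∀ e : ℤ, (e = 1 ∨ e = -1) →
        ∑ a ∈ Icc (-(N : ℤ)) N, TT f (3 * N) W ⌊τ * N / W⌋₊ (Nat.sqrt N) e a ^ (2 * (K + 1)) ≤
          C * δ ^ (K + 1) * N * ((Nat.sqrt N : ℝ) / Real.log N) ^ (2 * (K + 1)) := by
  obtain ⟨C, hC, hmod⟩ := model
  obtain ⟨A, hA, hm⟩ := hmod K
  refine ⟨6 * A * (1024 * C ^ 2) ^ (K + 1), ?_, ?_⟩
  · have h1 : (1 : ℝ) ≤ (1024 * C ^ 2) ^ (K + 1) := by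
      apply one_le_pow₀
      nlinarith
    nlinarith
  intro δ hδ hδ1 τ hτ W hW
  have hNW : NeZero W := ⟨by omega⟩
  have hW0 : (0 : ℝ) < W := by exact_mod_cast hW
  have hW1 : (1 : ℝ) ≤ W := by exact_mod_cast hW
  have hev1 : ∀ᶠ N : ℕ in atTop, (4 * W / τ + 2 * W + W / δ + 4) ^ 2 ≤ (N : ℝ) := tendsto_natCast_atTop_atTop.eventually_ge_atTop _
  filter_upwards [hev1, eventually_ge_atTop (W ^ 2 + 2 * W + 4)] with N hN1 hN2
  intro f hf0 hf hS e he
  set x := Nat.sqrt N with hx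
  set J := ⌊τ * N / W⌋₊ with hJ
  set m := K + 1 with hmd
  have hNr : (4 : ℝ) ≤ N := by exact_mod_cast (by omega : 4 ≤ N)
  have hN0 : (0 : ℝ) < N := by linarith
  have hlN : 0 < Real.log N := Real.log_pos (by linarith)
  -- x
  have hx1 : x ^ 2 ≤ N := Nat.sqrt_le' N
  have hx2 : N < (x + 1) ^ 2 := Nat.lt_succ_sqrt' N
  have hx1r : (x : ℝ) ^ 2 ≤ N := by exact_mod_cast hx1
  have hx2r : (N : ℝ) < ((x : ℝ) + 1) ^ 2 := by exact_mod_cast hx2
  have hbig : 4 * W / τ + 2 * W + W / δ + 4 < (x : ℝ) + 1 := by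
    have h1 : (4 * W / τ + 2 * W + W / δ + 4) ^ 2 < ((x : ℝ) + 1) ^ 2 := lt_of_le_of_lt hN1 hx2r
    exact lt_of_pow_lt_pow_left₀ 2 (by positivity) h1
  have p1 : 0 < 4 * (W : ℝ) / τ := by positivity
  have p2 : 0 < (W : ℝ) / δ := by positivity
  have hxW : 2 * (W : ℝ) + 3 ≤ x := by linarith
  have hxδ : (W : ℝ) / δ + 3 ≤ x := by linarith
  have hxτ : 4 * (W : ℝ) / τ + 3 ≤ x := by linarith
  have hx3 : (3 : ℝ) ≤ x := by linarith
  have hN4x : (N : ℝ) ≤ 4 * x ^ 2 := by nlinarith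
  -- J
  have hJr : 2 * (x : ℝ) + W + 1 ≤ J + 1 := by
    have h1 : τ * N / W < J + 1 := Nat.lt_floor_add_one _
    have h2 : 3 * (x : ℝ) + W + 1 ≤ τ * N / W := by
      rw [le_div_iff₀ hW0]
      rw [← sub_nonneg] at hxτ
      have h3 : 4 * (W : ℝ) ≤ τ * x := by
        have := mul_le_mul_of_nonneg_left (show 4 * (W : ℝ) / τ ≤ x by linarith) hτ.le
        rw [mul_div_cancel₀ _ hτ.ne'] at this
        exact this
      have h4 : 4 * (W : ℝ) * x ≤ τ * N := by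
        calc 4 * (W : ℝ) * x ≤ τ * x * x := mul_le_mul_of_nonneg_right h3 (by linarith)
          _ = τ * x ^ 2 := by ring
          _ ≤ τ * N := mul_le_mul_of_nonneg_left hx1r hτ.le
      nlinarith
    linarith
  have hJ1 : 2 * x + W ≤ J := by
    have : (2 * x + W : ℝ) ≤ J := by linarith
    exact_mod_cast this
  have hJ2 : 2 ≤ J := by
    have : (3 : ℕ) ≤ x := by exact_mod_cast hx3
    omega
  have hlJ : Real.log N / 2 ≤ Real.log J := by
    have h1 : (N : ℝ) ≤ (J : ℝ) ^ 2 := by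
      have h2 : (2 * x + W : ℝ) ≤ J := by exact_mod_cast hJ1
      nlinarith
    have h2 := Real.log_le_log hN0 h1
    rw [Real.log_pow] at h2
    push_cast at h2
    linarith
  have hlJ0 : 0 < Real.log J := by linarith
  -- k₀
  set k₀ := ⌈δ * x / W⌉₊ with hk₀
  have hk₀1 : 1 ≤ k₀ := Nat.one_le_ceil_iff.2 (by positivity)
  have hk₀l : δ * x / W ≤ k₀ := Nat.le_ceil _
  have hk₀u : (k₀ : ℝ) < δ * x / W + 1 := Nat.ceil_lt_add_one (by positivity)
  have hδx : 1 ≤ δ * x / W := by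
    rw [le_div_iff₀ hW0, one_mul]
    have h1 : (W : ℝ) / δ ≤ x := by linarith
    rw [div_le_iff₀ hδ] at h1
    linarith
  have hWk : W * k₀ ≤ J := by
    have h1 : (W : ℝ) * k₀ ≤ 2 * x + W := by
      have h2 : (W : ℝ) * k₀ ≤ W * (δ * x / W + 1) := mul_le_mul_of_nonneg_left hk₀u.le hW0.le
      have h3 : (W : ℝ) * (δ * x / W + 1) = δ * x + W := by field_simp
      nlinarith
    have h4 : (2 * x + W : ℝ) ≤ J := by exact_mod_cast hJ1
    have : ((W * k₀ : ℕ) : ℝ) ≤ J := by push_cast; linarith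
    exact_mod_cast this
  have hk₀0 : (0 : ℝ) < k₀ := by exact_mod_cast hk₀1
  -- the moments
  have hS0 : 0 ≤ ∑ p ∈ PP (3 * N), f p := sum_nonneg fun p _ => hf0 p
  have hmain : ∀ b : ℤ, ∑ t : ZMod W, TT f (3 * N) W J x e (e * (W * b + (t.val : ℤ))) ^ (2 * m) ≤
      W * (2 * A * (1024 * C ^ 2) ^ m * δ ^ m * ((x : ℝ) / Real.log N) ^ (2 * m)) := by
    intro b
    have h1 := hm f hf0 hf (3 * N) W J x k₀ hNW (by nlinarith) hJ1 hJ2 hk₀1 hWk e he b
    unfold E at h1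
    rw [div_le_iff₀ hW0] at h1
    refine h1.trans ?_
    rw [mul_comm]
    apply mul_le_mul_of_nonneg_left _ hW0.le
    have q1 : k₀ * C * W / Real.log J ≤ 4 * C * δ * (x / Real.log N) := by
      have h2 : (k₀ : ℝ) * W ≤ 2 * δ * x := by
        have h3 : (k₀ : ℝ) ≤ 2 * (δ * x / W) := by linarith
        calc (k₀ : ℝ) * W ≤ 2 * (δ * x / W) * W := mul_le_mul_of_nonneg_right h3 hW0.le
          _ = 2 * δ * x := by field_simp
      calc k₀ * C * W / Real.log J ≤ k₀ * C * W / (Real.log N / 2) := div_le_div_of_nonneg_left (by positivity) (by positivity) hlJ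
        _ = 2 * C * (k₀ * W) / Real.log N := by field_simp
        _ ≤ 2 * C * (2 * δ * x) / Real.log N := by
            apply div_le_div_of_nonneg_right _ hlN.le
            exact mul_le_mul_of_nonneg_left h2 (by positivity)
        _ = _ := by ring
    have q2 : 4 * C * (((x / W + 1 : ℕ) : ℝ) / k₀) * (∑ p ∈ PP (3 * N), f p) / Real.log J ≤ 64 * C * δ * (x / Real.log N) ^ 2 := by
      have h2 : ((x / W + 1 : ℕ) : ℝ) ≤ 2 * (x / W) := by
        push_cast
        have h3 : ((x / W : ℕ) : ℝ) ≤ x / W := Nat.cast_div_le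
        have h4 : 1 ≤ (x : ℝ) / W := by rw [le_div_iff₀ hW0]; linarith
        linarith
      have h3 : ((x / W + 1 : ℕ) : ℝ) / k₀ ≤ 2 / δ := by
        rw [div_le_div_iff₀ hk₀0 hδ]
        calc ((x / W + 1 : ℕ) : ℝ) * δ ≤ 2 * (x / W) * δ := mul_le_mul_of_nonneg_right h2 hδ.le
          _ = 2 * (δ * x / W) := by ring
          _ ≤ 2 * k₀ := by linarith
      calc 4 * C * (((x / W + 1 : ℕ) : ℝ) / k₀) * (∑ p ∈ PP (3 * N), f p) / Real.log J ≤
          4 * C * (2 / δ) * (δ ^ 2 * (N / Real.log N)) / (Real.log N / 2) := by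
            apply div_le_div₀ (by positivity) _ (by positivity) hlJ
            apply mul_le_mul _ hS hS0 (by positivity)
            exact mul_le_mul_of_nonneg_left h3 (by positivity)
        _ = 16 * C * δ * (N / Real.log N ^ 2) := by
            field_simp
            ring
        _ ≤ 16 * C * δ * (4 * x ^ 2 / Real.log N ^ 2) := by
            apply mul_le_mul_of_nonneg_left _ (by positivity)
            exact div_le_div_of_nonneg_right hN4x (by positivity)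
        _ = _ := by ring
    have r1 : (k₀ * C * W / Real.log J) ^ (2 * m) ≤ (64 * C ^ 2) ^ m * δ ^ m * ((x : ℝ) / Real.log N) ^ (2 * m) := by
      calc (k₀ * C * W / Real.log J) ^ (2 * m) ≤ (4 * C * δ * (x / Real.log N)) ^ (2 * m) := pow_le_pow_left₀ (by positivity) q1 _
        _ = ((4 * C * δ * (x / Real.log N)) ^ 2) ^ m := by rw [pow_mul]
        _ ≤ (64 * C ^ 2 * δ * (x / Real.log N) ^ 2) ^ m := by
            apply pow_le_pow_left₀ (by positivity)
            have h5 : (4 * C * δ * (x / Real.log N)) ^ 2 = 16 * C ^ 2 * (δ * δ) * (x / Real.log N) ^ 2 := by ring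
            rw [h5]
            have h6 : δ * δ ≤ δ := by nlinarith
            have h7 : 16 * C ^ 2 * (δ * δ) ≤ 64 * C ^ 2 * δ := by nlinarith [sq_nonneg C]
            exact mul_le_mul_of_nonneg_right h7 (by positivity)
        _ = _ := by rw [mul_pow, mul_pow, ← pow_mul]
    have r2 : (4 * C * (((x / W + 1 : ℕ) : ℝ) / k₀) * (∑ p ∈ PP (3 * N), f p) / Real.log J) ^ m ≤
        (64 * C ^ 2) ^ m * δ ^ m * ((x : ℝ) / Real.log N) ^ (2 * m) := by
      calc _ ≤ (64 * C * δ * (x / Real.log N) ^ 2) ^ m := by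
            apply pow_le_pow_left₀ _ q2
            apply div_nonneg _ hlJ0.le
            apply mul_nonneg _ hS0
            positivity
        _ ≤ (64 * C ^ 2 * δ * (x / Real.log N) ^ 2) ^ m := by
            apply pow_le_pow_left₀ (by positivity)
            apply mul_le_mul_of_nonneg_right _ (by positivity)
            apply mul_le_mul_of_nonneg_right _ hδ.le
            nlinarith
        _ = _ := by rw [mul_pow, mul_pow, ← pow_mul]
    calc 16 ^ m * A * ((k₀ * C * W / Real.log J) ^ (2 * m) +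
        (4 * C * (((x / W + 1 : ℕ) : ℝ) / k₀) * (∑ p ∈ PP (3 * N), f p) / Real.log J) ^ m) ≤
        16 ^ m * A * ((64 * C ^ 2) ^ m * δ ^ m * ((x : ℝ) / Real.log N) ^ (2 * m) + (64 * C ^ 2) ^ m * δ ^ m * ((x : ℝ) / Real.log N) ^ (2 * m)) := by
          apply mul_le_mul_of_nonneg_left (add_le_add r1 r2) (by positivity)
      _ = 2 * A * (16 ^ m * (64 * C ^ 2) ^ m) * δ ^ m * ((x : ℝ) / Real.log N) ^ (2 * m) := by ring
      _ = _ := by
          rw [← mul_pow]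
          congr 4
          ring
  have hbl := blocks W N e he (fun a => TT f (3 * N) W J x e a ^ (2 * m)) (fun a => (even_two_mul m).pow_nonneg _)
  refine hbl.trans ((sum_le_sum fun b _ => hmain b).trans ?_)
  rw [sum_const, Int.card_Icc, nsmul_eq_mul]
  have hcard : ((((N / W : ℕ) : ℤ) + 1 - -((N / W : ℕ) + 1 : ℤ)).toNat : ℝ) * W ≤ 3 * N := by
    have h1 : (((N / W : ℕ) : ℤ) + 1 - -((N / W : ℕ) + 1 : ℤ)).toNat = 2 * (N / W) + 2 := by omega
    rw [h1]
    have h2 : (2 * (N / W) + 2) * W ≤ 3 * N := by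
      have h3 := Nat.div_mul_le_self N W
      nlinarith
    exact_mod_cast h2
  set Y : ℝ := 2 * A * (1024 * C ^ 2) ^ m * δ ^ m * ((x : ℝ) / Real.log N) ^ (2 * m) with hY
  have hY0 : 0 ≤ Y := by
    rw [hY]
    have : 0 ≤ A := by linarith
    positivity
  calc ((((N / W : ℕ) : ℤ) + 1 - -((N / W : ℕ) + 1 : ℤ)).toNat : ℝ) * (W * Y) =
      (((((N / W : ℕ) : ℤ) + 1 - -((N / W : ℕ) + 1 : ℤ)).toNat : ℝ) * W) * Y := by ring
    _ ≤ (3 * N) * Y := mul_le_mul_of_nonneg_right hcard hY0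
    _ = _ := by rw [hY]; ring

end Pool.Agent.W5h22.RB
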