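import Mathlib
import Pool.Agent.W5h22.PV.D
import Pool.Agent.W5h22.RB.M4

set_option autoImplicit false

/-! Almost periodicity in `a` of the sums over the prime values, for an arbitrary bounded weight on the primes. -/

namespace Pool.Agent.W5h22.RB
open Finset Polynomial Filter Topology
open Pool.Agent.Helper602.MK
open Pool.Agent.H373R2.NB
open Pool.Agent.W5h22.PV

theorem transfer (ε : ℝ) (hε : 0 < ε) : ∃ W₀ : ℕ, 1 ≤ W₀ ∧ ∃ τ : ℝ, 0 < τ ∧ ∀ᶠ N : ℕ in atTop,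
    ∀ g : ℕ → ℝ, (∀ p, |g p| ≤ 1) → ∀ e : ℤ, (e = 1 ∨ e = -1) →
      (#((Icc (-(N : ℤ)) N).filter (fun a => ε * ((Nat.sqrt N : ℝ) / Real.log N) <
        |∑ n ∈ Icc 1 (Nat.sqrt N), pw g (e * (a + (n : ℤ) ^ 2)) -
          ∑ n ∈ Icc 1 (Nat.sqrt N), u g (3 * N) W₀ ⌊τ * N / W₀⌋₊ (e * (a + (n : ℤ) ^ 2))|)) : ℝ) ≤ ε * N := by
  have hdeg : (X ^ 2 : ℤ[X]).natDegree = 2 := natDegree_X_pow 2
  have hl : 0 < (X ^ 2 : ℤ[X]).leadingCoeff := by rw [leadingCoeff_X_pow]; norm_num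
  obtain ⟨W₀, hW₀, τ₀, hτ₀, k0, hk0, hsec⟩ := second (X ^ 2 : ℤ[X]) (by rw [hdeg]; norm_num) hl 28 (by norm_num) (ε ^ 3 / 200) (by positivity)
  set τ : ℝ := min τ₀ 1 with hτ
  have hτ0 : 0 < τ := by positivity
  have hτ1 : τ ≤ 1 := min_le_right _ _
  have hττ : τ ≤ τ₀ := min_le_left _ _
  have hW0r : (1 : ℝ) ≤ W₀ := by exact_mod_cast hW₀
  have hW0p : (0 : ℝ) < W₀ := by linarith
  refine ⟨W₀, hW₀, τ, hτ0, ?_⟩
  have hevN : ∀ᶠ N : ℕ in atTop, 2 * W₀ / τ ≤ N := tendsto_natCast_atTop_atTop.eventually_ge_atTop _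
  filter_upwards [evt_sqrt_log (4 / ε) (ε / 4) (by positivity),
    hevN, eventually_ge_atTop (k0 + 4)] with N hsq hN1 hN2
  intro g hg e he
  set x := Nat.sqrt N with hxd
  have hx1 : x ^ 2 ≤ N := Nat.sqrt_le' N
  have hx2 : N < (x + 1) ^ 2 := Nat.lt_succ_sqrt' N
  have hx : 1 ≤ x := by
    by_contra h
    have : x = 0 := by omega
    rw [this] at hx2
    omega
  have hNx : N ≤ 4 * x ^ 2 := by nlinarith
  have hN3 : (3 : ℝ) ≤ N := by exact_mod_cast (by omega : 3 ≤ N)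
  have hN0 : (0 : ℝ) < N := by linarith
  have hlN : 0 < Real.log N := Real.log_pos (by linarith)
  have hx0 : (0 : ℝ) < x := by exact_mod_cast hx
  have : NeZero (7 * N) := ⟨by omega⟩
  set J : ℕ := ⌊τ * N / W₀⌋₊ with hJ
  have hJle : (J : ℝ) ≤ τ * N / W₀ := Nat.floor_le (by positivity)
  have hge2 : 2 ≤ τ * N / W₀ := by
    rw [le_div_iff₀ hW0p]
    rw [div_le_iff₀ hτ0] at hN1
    linarith
  have hJge : τ * N / W₀ / 2 ≤ J := by
    have := Nat.lt_floor_add_one (τ * N / W₀)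
    rw [← hJ] at this
    linarith
  have hJ1 : 1 ≤ J := by
    have : (1 : ℝ) ≤ J := by linarith
    exact_mod_cast this
  have hJ0 : (0 : ℝ) < J := by exact_mod_cast hJ1
  have hJW : ((J * W₀ : ℕ) : ℝ) ≤ τ * N := by
    push_cast
    rw [le_div_iff₀ hW0p] at hJle
    exact hJle
  have hJWN : J * W₀ ≤ N := by
    have : ((J * W₀ : ℕ) : ℝ) ≤ N := hJW.trans (by nlinarith)
    exact_mod_cast this
  have hs := hsec (3 * N) (by omega) (7 * N) (by omega) (by omega) x hx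
    (by rw [hdeg]; omega) W₀ J hJ1 dvd_rfl (by
        push_cast
        push_cast at hJW
        calc (J : ℝ) * W₀ ≤ τ * N := hJW
          _ ≤ τ₀ * (3 * N) := by nlinarith) g hg e he
  simp only [eval_pow, eval_X] at hs
  -- the difference for an integer `a`
  set D : ℤ → ℝ := fun a => ∑ n ∈ Icc 1 x, df W₀ J (wZ g (3 * N) (7 * N)) (((e * a : ℤ) : ZMod (7 * N)) + ((e * (n : ℤ) ^ 2 : ℤ) : ZMod (7 * N))) with hD
  have hDsq : ∑ a ∈ Icc (-(N : ℤ)) N, D a ^ 2 ≤ 3 * (ε ^ 3 / 200) * N * (x / Real.log N) ^ 2 := by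
    have h1 := sum_embed (M := 7 * N) N (by omega) e he (fun a => (∑ n ∈ Icc 1 x, df W₀ J (wZ g (3 * N) (7 * N)) (a + ((e * (n : ℤ) ^ 2 : ℤ) : ZMod (7 * N)))) ^ 2)
      (fun a => sq_nonneg _)
    refine h1.trans (hs.trans ?_)
    push_cast
    have h2 : Real.log N ≤ Real.log (3 * N) := Real.log_le_log hN0 (by linarith)
    have h3 : (x / Real.log (3 * N)) ^ 2 ≤ (x / Real.log N) ^ 2 := by
      apply pow_le_pow_left₀ (div_nonneg hx0.le (hlN.le.trans h2))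
      exact div_le_div_of_nonneg_left hx0.le hlN h2
    calc ε ^ 3 / 200 * (3 * (N : ℝ)) * (x / Real.log (3 * N)) ^ 2 ≤ ε ^ 3 / 200 * (3 * (N : ℝ)) * (x / Real.log N) ^ 2 :=
          mul_le_mul_of_nonneg_left h3 (by positivity)
      _ = _ := by ring
  set c : ℤ → ℝ := fun a => (#((Icc 1 x).filter (fun n : ℕ => 1 ≤ e * (a + (n : ℤ) ^ 2) ∧ e * (a + (n : ℤ) ^ 2) ≤ (Nat.sqrt (3 * N) : ℕ))) : ℝ) with hc
  have hcs : ∑ a ∈ Icc (-(N : ℤ)) N, c a ≤ x * Real.sqrt (3 * N) := by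
    have h1 := small_values (X ^ 2 : ℤ[X]) N (Nat.sqrt (3 * N)) x e he
    simp only [eval_pow, eval_X] at h1
    refine h1.trans ?_
    apply mul_le_mul_of_nonneg_left _ hx0.le
    calc (Nat.sqrt (3 * N) : ℝ) ≤ Real.sqrt ((3 * N : ℕ) : ℝ) := Real.nat_sqrt_le_real_sqrt
      _ = _ := by push_cast; rfl
  set lam : ℝ := ε / 4 * (x / Real.log N) with hlam
  have hlam0 : 0 < lam := by positivity
  have hB1 : (#((Icc (-(N : ℤ)) N).filter (fun a => lam ^ 2 < D a ^ 2)) : ℝ) ≤ ε / 4 * N := by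
    have h1 := (markov (Icc (-(N : ℤ)) N) (fun a => D a ^ 2) (lam ^ 2) (fun a _ => sq_nonneg _)).trans hDsq
    have h2 : 3 * (ε ^ 3 / 200) * N * (x / Real.log N) ^ 2 ≤ (ε / 4 * N) * lam ^ 2 := by
      rw [hlam]
      have h3 : 0 ≤ ε ^ 3 * N * (x / Real.log N) ^ 2 := by positivity
      have h4 : (ε / 4 * N) * (ε / 4 * (x / Real.log N)) ^ 2 = (1 / 64) * (ε ^ 3 * N * (x / Real.log N) ^ 2) := by ring
      rw [h4]
      linarith
    exact le_of_mul_le_mul_right (h1.trans h2) (pow_pos hlam0 2)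
  have hB2 : (#((Icc (-(N : ℤ)) N).filter (fun a => lam < c a)) : ℝ) ≤ ε / 4 * N := by
    have h1 := (markov (Icc (-(N : ℤ)) N) c lam (fun a _ => Nat.cast_nonneg _)).trans hcs
    have h2 : x * Real.sqrt (3 * N) ≤ (ε / 4 * N) * lam := by
      rw [hlam]
      have h3 : (4 / ε) * Real.sqrt (3 * N) * Real.log N ≤ ε / 4 * N := by
        refine le_trans ?_ hsq
        apply mul_le_mul_of_nonneg_right _ hlN.le
        apply mul_le_mul_of_nonneg_left _ (by positivity)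
        linarith
      calc (x : ℝ) * Real.sqrt (3 * N) = ((4 / ε) * Real.sqrt (3 * N) * Real.log N) * (ε / 4 * (x / Real.log N)) := by
            field_simp
        _ ≤ _ := mul_le_mul_of_nonneg_right h3 (by positivity)
    exact le_of_mul_le_mul_right (h1.trans h2) hlam0
  have hsub : (Icc (-(N : ℤ)) N).filter (fun a => ε * (x / Real.log N) < |∑ n ∈ Icc 1 x, pw g (e * (a + (n : ℤ) ^ 2)) -
        ∑ n ∈ Icc 1 x, u g (3 * N) W₀ J (e * (a + (n : ℤ) ^ 2))|) ⊆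
      (Icc (-(N : ℤ)) N).filter (fun a => lam ^ 2 < D a ^ 2) ∪ (Icc (-(N : ℤ)) N).filter (fun a => lam < c a) := by
    intro a ha
    rw [mem_filter] at ha
    obtain ⟨haN, hbig⟩ := ha
    rw [mem_union, mem_filter, mem_filter]
    by_contra hcon
    push Not at hcon
    have hD1 := hcon.1 haN
    have hc1 := hcon.2 haN
    rw [mem_Icc] at haN
    have hD2 : |D a| ≤ lam := abs_le_of_sq_le_sq hD1 hlam0.le
    have hFx : ∀ n ∈ Icc 1 x, |(n : ℤ) ^ 2| ≤ N := by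
      intro n hn
      rw [mem_Icc] at hn
      rw [abs_of_nonneg (by positivity)]
      have : n ^ 2 ≤ x ^ 2 := Nat.pow_le_pow_left hn.2 2
      exact_mod_cast this.trans hx1
    have hv : ∀ n ∈ Icc 1 x, -(2 * N : ℤ) ≤ e * (a + (n : ℤ) ^ 2) ∧ e * (a + (n : ℤ) ^ 2) ≤ 2 * N := by
      intro n hn
      have h1 := abs_le.1 (hFx n hn)
      rcases he with rfl | rfl <;> constructor <;> linarith [h1.1, h1.2, haN.1, haN.2]
    have hDa : D a = ∑ n ∈ Icc 1 x, (pk g (3 * N) (e * (a + (n : ℤ) ^ 2)) - u g (3 * N) W₀ J (e * (a + (n : ℤ) ^ 2))) := by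
      simp only [hD]
      apply sum_congr rfl
      intro n hn
      have h1 := hv n hn
      unfold u
      rw [← df_int (M := 7 * N) g (3 * N) W₀ J (e * (a + (n : ℤ) ^ 2)) (by push_cast; linarith [h1.1]) (by
        have h2 : ((J * W₀ : ℕ) : ℤ) ≤ N := by exact_mod_cast hJWN
        push_cast at *
        linarith [h1.2])]
      congr 1
      push_cast; ring
    have hs2 : |∑ n ∈ Icc 1 x, (pw g (e * (a + (n : ℤ) ^ 2)) - pk g (3 * N) (e * (a + (n : ℤ) ^ 2)))| ≤ c a := by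
      calc _ ≤ ∑ n ∈ Icc 1 x, |pw g (e * (a + (n : ℤ) ^ 2)) - pk g (3 * N) (e * (a + (n : ℤ) ^ 2))| := abs_sum_le_sum_abs _ _
        _ ≤ ∑ n ∈ Icc 1 x, (if 1 ≤ e * (a + (n : ℤ) ^ 2) ∧ e * (a + (n : ℤ) ^ 2) ≤ (Nat.sqrt (3 * N) : ℕ) then (1 : ℝ) else 0) := by
            apply sum_le_sum
            intro n hn
            have h1 := hv n hn
            exact pw_sub_pk g hg (3 * N) _ (by push_cast; linarith [h1.2])
        _ = c a := by
            simp only [hc]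
            rw [← sum_filter, sum_const, nsmul_eq_mul, mul_one]
    have hfin : ∑ n ∈ Icc 1 x, pw g (e * (a + (n : ℤ) ^ 2)) - ∑ n ∈ Icc 1 x, u g (3 * N) W₀ J (e * (a + (n : ℤ) ^ 2)) = D a +
        ∑ n ∈ Icc 1 x, (pw g (e * (a + (n : ℤ) ^ 2)) - pk g (3 * N) (e * (a + (n : ℤ) ^ 2))) := by
      rw [hDa, ← sum_add_distrib, ← sum_sub_distrib]
      apply sum_congr rfl
      intro n _
      ring
    rw [hfin] at hbig
    have h4 := abs_add_le (D a) (∑ n ∈ Icc 1 x, (pw g (e * (a + (n : ℤ) ^ 2)) - pk g (3 * N) (e * (a + (n : ℤ) ^ 2))))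
    have h5 : ε * (x / Real.log N) = 4 * lam := by rw [hlam]; ring
    linarith
  calc _ ≤ ((#((Icc (-(N : ℤ)) N).filter (fun a => lam ^ 2 < D a ^ 2) ∪ (Icc (-(N : ℤ)) N).filter (fun a => lam < c a)) : ℕ) : ℝ) := by
        exact_mod_cast card_le_card hsub
    _ ≤ (#((Icc (-(N : ℤ)) N).filter (fun a => lam ^ 2 < D a ^ 2)) : ℝ) + #((Icc (-(N : ℤ)) N).filter (fun a => lam < c a)) := by
        exact_mod_cast card_union_le _ _
    _ ≤ ε * N := by nlinarith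

/-- few shifts have many prime values in a thin set -/
theorem few (K : ℕ) (κ : ℝ) (hκ : 0 < κ) : ∃ C : ℝ, 1 ≤ C ∧ ∀ δ : ℝ, 0 < δ → δ ≤ 1 →
    ∀ᶠ N : ℕ in atTop, ∀ f : ℕ → ℝ, (∀ p, 0 ≤ f p) → (∀ p, f p ≤ 1) → ∑ p ∈ PP (3 * N), f p ≤ δ ^ 2 * (N / Real.log N) →
      ∀ e : ℤ, (e = 1 ∨ e = -1) →
        (#((Icc (-(N : ℤ)) N).filter (fun a => κ * ((Nat.sqrt N : ℝ) / Real.log N) <
          ∑ n ∈ Icc 1 (Nat.sqrt N), pw f (e * (a + (n : ℤ) ^ 2)))) : ℝ) ≤ C * δ ^ (K + 1) * N := by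
  obtain ⟨C, hC, hl⟩ := large K
  refine ⟨C * (2 / κ) ^ (2 * (K + 1)) + 1, by
    have : 0 ≤ C * (2 / κ) ^ (2 * (K + 1)) := by positivity
    linarith, ?_⟩
  intro δ hδ hδ1
  set m := K + 1 with hm
  set ε : ℝ := min (κ / 2) (δ ^ m) with hε
  have hε0 : 0 < ε := by positivity
  obtain ⟨W₀, hW₀, τ, hτ, htr⟩ := transfer ε hε0
  filter_upwards [htr, hl δ hδ hδ1 τ hτ W₀ hW₀, eventually_ge_atTop 4] with N h1 h2 hN4
  intro f hf0 hf hS e he
  have hN4r : (4 : ℝ) ≤ N := by exact_mod_cast hN4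
  have hlN : 0 < Real.log N := Real.log_pos (by linarith)
  set x := Nat.sqrt N with hx
  have hx1 : 1 ≤ x := by
    rw [hx, Nat.le_sqrt]
    omega
  have hx0 : (0 : ℝ) < x := by exact_mod_cast hx1
  have k1 := h1 f (fun p => by rw [abs_of_nonneg (hf0 p)]; exact hf p) e he
  have k2 := h2 f hf0 hf hS e he
  set T : ℤ → ℝ := fun a => TT f (3 * N) W₀ ⌊τ * N / W₀⌋₊ x e a with hT
  have hT0 : ∀ a, 0 ≤ T a := fun a => sum_nonneg fun n _ => u_nonneg f hf0 _ _ _ _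
  set lam : ℝ := κ / 2 * ((x : ℝ) / Real.log N) with hlam
  have hlam0 : 0 < lam := by positivity
  have k3 := markov (Icc (-(N : ℤ)) N) (fun a => T a ^ (2 * m)) (lam ^ (2 * m)) (fun a _ => (even_two_mul m).pow_nonneg _)
  have k4 : (#((Icc (-(N : ℤ)) N).filter (fun a => lam ^ (2 * m) < T a ^ (2 * m))) : ℝ) ≤ C * (2 / κ) ^ (2 * m) * δ ^ m * N := by
    have h3 := k3.trans k2
    have h4 : C * δ ^ m * N * ((x : ℝ) / Real.log N) ^ (2 * m) = (C * (2 / κ) ^ (2 * m) * δ ^ m * N) * lam ^ (2 * m) := by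
      rw [hlam, mul_pow (κ / 2)]
      have h5 : (2 / κ) ^ (2 * m) * (κ / 2) ^ (2 * m) = 1 := by
        rw [← mul_pow]
        have : 2 / κ * (κ / 2) = 1 := by field_simp
        rw [this, one_pow]
      linear_combination (-(C * δ ^ m * N * ((x : ℝ) / Real.log N) ^ (2 * m))) * h5
    rw [h4] at h3
    exact le_of_mul_le_mul_right h3 (by positivity)
  have hsub : (Icc (-(N : ℤ)) N).filter (fun a => κ * ((x : ℝ) / Real.log N) < ∑ n ∈ Icc 1 x, pw f (e * (a + (n : ℤ) ^ 2))) ⊆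
      (Icc (-(N : ℤ)) N).filter (fun a => ε * ((x : ℝ) / Real.log N) <
        |∑ n ∈ Icc 1 x, pw f (e * (a + (n : ℤ) ^ 2)) - ∑ n ∈ Icc 1 x, u f (3 * N) W₀ ⌊τ * N / W₀⌋₊ (e * (a + (n : ℤ) ^ 2))|) ∪
      (Icc (-(N : ℤ)) N).filter (fun a => lam ^ (2 * m) < T a ^ (2 * m)) := by
    intro a ha
    rw [mem_filter] at ha
    rw [mem_union, mem_filter, mem_filter]
    by_contra hcon
    push Not at hcon
    have c1 := hcon.1 ha.1
    have c2 := hcon.2 ha.1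
    have c3 : T a ≤ lam := by
      by_contra h
      push Not at h
      have := pow_lt_pow_left₀ h hlam0.le (n := 2 * m) (by omega)
      linarith
    have c4 := ha.2
    have c5 : T a = ∑ n ∈ Icc 1 x, u f (3 * N) W₀ ⌊τ * N / W₀⌋₊ (e * (a + (n : ℤ) ^ 2)) := rfl
    rw [← c5] at c1
    have c6 := (abs_le.1 c1).2
    have c7 : ε * ((x : ℝ) / Real.log N) ≤ κ / 2 * ((x : ℝ) / Real.log N) :=
      mul_le_mul_of_nonneg_right (min_le_left _ _) (by positivity)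
    have c8 : lam = κ / 2 * ((x : ℝ) / Real.log N) := rfl
    linarith
  have hεδ : ε ≤ δ ^ m := min_le_right _ _
  calc (#((Icc (-(N : ℤ)) N).filter (fun a => κ * ((x : ℝ) / Real.log N) < ∑ n ∈ Icc 1 x, pw f (e * (a + (n : ℤ) ^ 2)))) : ℝ) ≤
      ((#((Icc (-(N : ℤ)) N).filter (fun a => ε * ((x : ℝ) / Real.log N) <
        |∑ n ∈ Icc 1 x, pw f (e * (a + (n : ℤ) ^ 2)) - ∑ n ∈ Icc 1 x, u f (3 * N) W₀ ⌊τ * N / W₀⌋₊ (e * (a + (n : ℤ) ^ 2))|) ∪
      (Icc (-(N : ℤ)) N).filter (fun a => lam ^ (2 * m) < T a ^ (2 * m))) : ℕ) : ℝ) := by exact_mod_cast card_le_card hsub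
    _ ≤ (#((Icc (-(N : ℤ)) N).filter (fun a => ε * ((x : ℝ) / Real.log N) <
        |∑ n ∈ Icc 1 x, pw f (e * (a + (n : ℤ) ^ 2)) - ∑ n ∈ Icc 1 x, u f (3 * N) W₀ ⌊τ * N / W₀⌋₊ (e * (a + (n : ℤ) ^ 2))|)) : ℝ) +
      #((Icc (-(N : ℤ)) N).filter (fun a => lam ^ (2 * m) < T a ^ (2 * m))) := by exact_mod_cast card_union_le _ _
    _ ≤ ε * N + C * (2 / κ) ^ (2 * m) * δ ^ m * N := add_le_add k1 k4
    _ ≤ δ ^ m * N + C * (2 / κ) ^ (2 * m) * δ ^ m * N := by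
        have := mul_le_mul_of_nonneg_right hεδ (by linarith : (0 : ℝ) ≤ N)
        linarith
    _ = _ := by ring

end Pool.Agent.W5h22.RB
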