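import Mathlib
import Pool.Agent.W5h22.PV.G
import Pool.Agent.W5h22.RB.T

set_option autoImplicit false

/-! The formula of Hardy and Littlewood after the deletion of a thin set of primes. -/

namespace Pool.Agent.W5h22.RB
open Finset Polynomial Filter Topology
open Pool.Agent.Helper602.MK
open Pool.Agent.H373R2.NB
open Pool.Agent.W5h22.PV

lemma mean_one (q b : ℕ) (hq : 1 ≤ q) (hb : Nat.Coprime b q) : Tendsto (mean (fun _ => 1) q b) atTop (𝓝 1) := by
  obtain ⟨p, _, hp, hpb⟩ := Nat.forall_exists_prime_gt_and_modEq 0 (by omega : q ≠ 0) hb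
  refine tendsto_const_nhds.congr' ?_
  filter_upwards [eventually_ge_atTop p] with t ht
  unfold mean
  rw [sum_const, nsmul_eq_mul, mul_one, div_self]
  have h1 : p ∈ (Icc 1 t).filter (fun p => p.Prime ∧ p ≡ b [MOD q]) := by
    rw [mem_filter, mem_Icc]
    exact ⟨⟨hp.one_lt.le, ht⟩, hp, hpb⟩
  have h2 : 0 < #((Icc 1 t).filter (fun p => p.Prime ∧ p ≡ b [MOD q])) := card_pos.2 ⟨p, h1⟩
  exact_mod_cast h2.ne'

open Classical in
theorem main2 (K : ℕ) (κ : ℝ) (hκ : 0 < κ) : ∃ C : ℝ, ∀ η : ℝ, 0 < η → ∃ X₀ : ℕ, ∀ X : ℕ, X₀ ≤ X →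
    ∀ g : ℕ → ℝ, (∀ p, 0 ≤ g p) → (∀ p, g p ≤ 1) →
      ∑ p ∈ (Icc 1 (2 * X)).filter Nat.Prime, (1 - g p) ≤ η * (X / Real.log X) →
      (#((Icc (-(X : ℤ)) X).filter (fun a : ℤ => ¬ ∃ H : ℝ, IsConstant a H ∧
        ∀ y : ℕ, y ^ 2 ≤ X → |R g a y - H * y / Real.log X| ≤ κ * (Real.sqrt X / Real.log X))) : ℝ) ≤ C * η ^ K * X := by
  obtain ⟨C, hC, hfew⟩ := few (2 * K + 1) (κ / 3) (by positivity)
  refine ⟨2 * C + 3, ?_⟩
  intro η hη
  rcases le_or_gt η 1 with hη1 | hη1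
  swap
  · refine ⟨1, fun X hX g _ _ _ => ?_⟩
    have hX1 : (1 : ℝ) ≤ X := by exact_mod_cast hX
    have h1 : (#((Icc (-(X : ℤ)) X).filter (fun a : ℤ => ¬ ∃ H : ℝ, IsConstant a H ∧
        ∀ y : ℕ, y ^ 2 ≤ X → |R g a y - H * y / Real.log X| ≤ κ * (Real.sqrt X / Real.log X))) : ℝ) ≤ 3 * X := by
      have h2 : #((Icc (-(X : ℤ)) X).filter (fun a : ℤ => ¬ ∃ H : ℝ, IsConstant a H ∧
        ∀ y : ℕ, y ^ 2 ≤ X → |R g a y - H * y / Real.log X| ≤ κ * (Real.sqrt X / Real.log X))) ≤ 3 * X := by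
        refine (card_filter_le _ _).trans ?_
        rw [Int.card_Icc]
        omega
      exact_mod_cast h2
    refine h1.trans ?_
    have h2 : 1 ≤ η ^ K := one_le_pow₀ hη1.le
    have h3 : 3 ≤ (2 * C + 3) * η ^ K := by nlinarith
    exact mul_le_mul_of_nonneg_right h3 (by linarith)
  set ε : ℝ := min (κ / 3) (η ^ K) with hε
  have hε0 : 0 < ε := by positivity
  obtain ⟨X₁, hX₁⟩ := main (fun _ => 1) (fun _ => by simp) 1 (fun q b hq hb => mean_one q b hq hb) ε hε0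
  have hδ : 0 < Real.sqrt η := Real.sqrt_pos.2 hη
  have hδ1 : Real.sqrt η ≤ 1 := Real.sqrt_le_one.2 hη1
  obtain ⟨X₂, hX₂⟩ := eventually_atTop.1 (hfew (Real.sqrt η) hδ hδ1)
  refine ⟨X₁ + X₂ + 4, fun X hX g hg0 hg1 hsum => ?_⟩
  have hX4 : (4 : ℝ) ≤ X := by exact_mod_cast (by omega : 4 ≤ X)
  have hlX : 0 < Real.log X := Real.log_pos (by linarith)
  set x := Nat.sqrt X with hx
  have hxs : (x : ℝ) ≤ Real.sqrt X := by
    apply Real.le_sqrt_of_sq_le
    exact_mod_cast Nat.sqrt_le' X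
  set f : ℕ → ℝ := fun p => if p ≤ 2 * X then 1 - g p else 0 with hf
  have hf0 : ∀ p, 0 ≤ f p := by
    intro p; simp only [hf]; split_ifs
    · linarith [hg1 p]
    · exact le_rfl
  have hf1 : ∀ p, f p ≤ 1 := by
    intro p; simp only [hf]; split_ifs
    · linarith [hg0 p]
    · norm_num
  have hfs : ∑ p ∈ PP (3 * X), f p ≤ Real.sqrt η ^ 2 * (X / Real.log X) := by
    rw [Real.sq_sqrt hη.le]
    refine le_trans ?_ hsum
    have h1 : ∑ p ∈ PP (3 * X), f p = ∑ p ∈ (PP (3 * X)).filter (fun p => p ≤ 2 * X), (1 - g p) := by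
      rw [sum_filter]
    rw [h1]
    apply sum_le_sum_of_subset_of_nonneg
    · intro p hp
      rw [mem_filter, mem_PP] at hp
      rw [mem_filter, mem_Icc]
      exact ⟨⟨hp.1.2.1.one_lt.le, hp.2⟩, hp.1.2.1⟩
    · intro p _ _
      linarith [hg1 p]
  have k1 := hX₂ X (by omega) f hf0 hf1 hfs 1 (Or.inl rfl)
  have k2 := hX₂ X (by omega) f hf0 hf1 hfs (-1) (Or.inr rfl)
  have k3 := hX₁ X (by omega)
  have hRf : ∀ a : ℤ, |a| ≤ X → ∀ y : ℕ, y ^ 2 ≤ X → R (fun _ => 1) a y - R g a y = R f a y := by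
    intro a ha y hy
    unfold R
    rw [← sum_sub_distrib]
    apply sum_congr rfl
    intro n hn
    rw [mem_Icc] at hn
    split_ifs with hp
    · simp only [hf]
      rw [if_pos]
      have h1 : n ^ 2 ≤ X := (Nat.pow_le_pow_left hn.2 2).trans hy
      have h2 : ((n : ℤ) ^ 2) ≤ X := by exact_mod_cast h1
      have h3 : (0 : ℤ) ≤ (n : ℤ) ^ 2 := sq_nonneg _
      rw [abs_le] at ha
      omega
    · ring
  have hRmono : ∀ a : ℤ, ∀ y : ℕ, y ≤ x → R f a y ≤ R f a x := by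
    intro a y hy
    unfold R
    apply sum_le_sum_of_subset_of_nonneg
    · exact Icc_subset_Icc_right hy
    · intro n _ _
      split_ifs
      · exact hf0 _
      · exact le_rfl
  have hR0 : ∀ a : ℤ, ∀ y : ℕ, 0 ≤ R f a y := by
    intro a y
    unfold R
    apply sum_nonneg
    intro n _
    split_ifs
    · exact hf0 _
    · exact le_rfl
  have hsub : (Icc (-(X : ℤ)) X).filter (fun a : ℤ => ¬ ∃ H : ℝ, IsConstant a H ∧
        ∀ y : ℕ, y ^ 2 ≤ X → |R g a y - H * y / Real.log X| ≤ κ * (Real.sqrt X / Real.log X)) ⊆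
      ((Icc (-(X : ℤ)) X).filter (fun a : ℤ => ¬ ∃ H : ℝ, IsConstant a H ∧
        ∀ y : ℕ, y ^ 2 ≤ X → |R (fun _ => 1) a y - 1 * H * y / Real.log X| ≤ ε * (Real.sqrt X / Real.log X)) ∪
      (Icc (-(X : ℤ)) X).filter (fun a => κ / 3 * ((x : ℝ) / Real.log X) < ∑ n ∈ Icc 1 x, pw f (1 * (a + (n : ℤ) ^ 2)))) ∪
      (Icc (-(X : ℤ)) X).filter (fun a => κ / 3 * ((x : ℝ) / Real.log X) < ∑ n ∈ Icc 1 x, pw f (-1 * (a + (n : ℤ) ^ 2))) := by
    intro a ha
    rw [mem_filter] at ha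
    obtain ⟨haX, hbad⟩ := ha
    rw [mem_union, mem_union, mem_filter, mem_filter, mem_filter]
    by_contra hcon
    push Not at hcon
    obtain ⟨⟨c1, c2⟩, c3⟩ := hcon
    obtain ⟨H, hH, hHy⟩ := c1 haX
    have c2' := c2 haX
    have c3' := c3 haX
    apply hbad
    refine ⟨H, hH, fun y hy => ?_⟩
    have h1 := hHy y hy
    rw [one_mul] at h1
    have haX' : |a| ≤ X := by rw [mem_Icc] at haX; rw [abs_le]; exact haX
    have h2 := hRf a haX' y hy
    have hyx : y ≤ x := by rw [hx, Nat.le_sqrt']; exact hy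
    have h3 := hRmono a y hyx
    have h4 := hR0 a y
    have h5 : R f a x ≤ 2 * (κ / 3) * (Real.sqrt X / Real.log X) := by
      rw [R_split]
      simp only [eval_pow, eval_X]
      have h6 : κ / 3 * ((x : ℝ) / Real.log X) ≤ κ / 3 * (Real.sqrt X / Real.log X) :=
        mul_le_mul_of_nonneg_left (div_le_div_of_nonneg_right hxs hlX.le) (by positivity)
      linarith
    have h7 : ε * (Real.sqrt X / Real.log X) ≤ κ / 3 * (Real.sqrt X / Real.log X) :=
      mul_le_mul_of_nonneg_right (min_le_left _ _) (by positivity)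
    have h8 : R g a y = R (fun _ => 1) a y - R f a y := by linarith
    rw [h8]
    rw [abs_le] at h1 ⊢
    constructor <;> linarith [h1.1, h1.2]
  have hpow : Real.sqrt η ^ (2 * K + 1 + 1) ≤ η ^ K := by
    have h1 : 2 * K + 1 + 1 = 2 * (K + 1) := by ring
    rw [h1, pow_mul, Real.sq_sqrt hη.le, pow_succ]
    have : 0 ≤ η ^ K := by positivity
    nlinarith
  have hX0 : (0 : ℝ) ≤ X := by linarith
  have hC0 : 0 ≤ C := by linarith
  have k4 : C * Real.sqrt η ^ (2 * K + 1 + 1) * X ≤ C * η ^ K * X :=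
    mul_le_mul_of_nonneg_right (mul_le_mul_of_nonneg_left hpow hC0) hX0
  have k5 : ε * X ≤ η ^ K * X := mul_le_mul_of_nonneg_right (min_le_right _ _) hX0
  have k6 : 0 ≤ η ^ K * X := by positivity
  have k7 := (card_le_card hsub).trans ((card_union_le _ _).trans (Nat.add_le_add_right (card_union_le _ _) _))
  have k8 : (#((Icc (-(X : ℤ)) X).filter (fun a : ℤ => ¬ ∃ H : ℝ, IsConstant a H ∧
        ∀ y : ℕ, y ^ 2 ≤ X → |R g a y - H * y / Real.log X| ≤ κ * (Real.sqrt X / Real.log X))) : ℝ) ≤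
      (ε * X + C * Real.sqrt η ^ (2 * K + 1 + 1) * X) + C * Real.sqrt η ^ (2 * K + 1 + 1) * X := by
    refine ((Nat.cast_le (α := ℝ)).2 k7).trans ?_
    rw [Nat.cast_add, Nat.cast_add]
    exact add_le_add (add_le_add k3 k1) k2
  refine k8.trans ?_
  nlinarith

end Pool.Agent.W5h22.RB
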